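import Pool.Agent.D4.Torsion

/-!
# Class functions on an amalgamated product

Conjugation invariant functions on the two factors of an amalgamated product which agree on the
amalgamated subgroup are restrictions of a conjugation invariant function on the product.
-/

namespace Pool.Agent.FG

open Monoid

section general

variable {ι : Type} {H : Type} {F : ι → Type} [Group H] [∀ i, Group (F i)]
  {φ : ∀ i, H →* F i}

/-- The product of a list of elements of the factors. -/
def prodL (φ : ∀ i, H →* F i) (l : List (Σ i, F i)) : PushoutI φ :=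
  (l.map (fun p => PushoutI.of p.1 p.2)).prod

theorem prodL_nil : prodL φ [] = 1 := by simp [prodL]

theorem prodL_cons (p : Σ i, F i) (l : List (Σ i, F i)) :
    prodL φ (p :: l) = PushoutI.of p.1 p.2 * prodL φ l := by simp [prodL]

theorem prodL_append (l m : List (Σ i, F i)) :
    prodL φ (l ++ m) = prodL φ l * prodL φ m := by simp [prodL]

theorem exists_prodL [Nonempty ι] (x : PushoutI φ) : ∃ l, x = prodL φ l := by
  induction x using PushoutI.induction_on with
  | of i g => exact ⟨[⟨i, g⟩], by simp [prodL]⟩
  | base h =>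
    obtain ⟨i⟩ := ‹Nonempty ι›
    exact ⟨[⟨i, φ i h⟩], by simp [prodL, PushoutI.of_apply_eq_base]⟩
  | mul x y hx hy =>
    obtain ⟨l, rfl⟩ := hx
    obtain ⟨m, rfl⟩ := hy
    exact ⟨l ++ m, by rw [prodL_append]⟩

/-- The list of inverses in reverse order. -/
def invL (l : List (Σ i, F i)) : List (Σ i, F i) := (l.map fun p => ⟨p.1, p.2⁻¹⟩).reverse

theorem prodL_invL (l : List (Σ i, F i)) : prodL φ (invL l) = (prodL φ l)⁻¹ := by
  induction l with
  | nil => simp [invL, prodL]
  | cons p l ih =>
    have h : invL (p :: l) = invL l ++ [⟨p.1, p.2⁻¹⟩] := by simp [invL]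
    rw [h, prodL_append, ih, prodL_cons, prodL_cons, prodL_nil, mul_one, mul_inv_rev, map_inv]

/-- Consecutive indices differ and no letter is in the amalgamated subgroup. -/
def RedL (φ : ∀ i, H →* F i) (l : List (Σ i, F i)) : Prop :=
  l.IsChain (fun a b => a.1 ≠ b.1) ∧ ∀ r ∈ l, r.2 ∉ (φ r.1).range

theorem RedL.eq_nil (hφ : ∀ i, Function.Injective (φ i)) {l : List (Σ i, F i)} (h : RedL φ l)
    (h2 : prodL φ l ∈ (PushoutI.base φ).range) : l = [] := by
  let w : CoprodI.Word F := ⟨l, by
    intro r hr h1
    apply h.2 r hr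
    rw [h1]
    exact one_mem _, h.1⟩
  have hw : PushoutI.Reduced φ w := fun r hr => h.2 r hr
  have hprod : PushoutI.ofCoprodI (φ := φ) w.prod = prodL φ l := by
    rw [CoprodI.Word.prod, map_list_prod, List.map_map]
    rfl
  have h3 := hw.eq_empty_of_mem_range hφ (by rw [hprod]; exact h2)
  have h4 : w.toList = [] := by rw [h3]; rfl
  exact h4

theorem RedL.tail {p : Σ i, F i} {l : List (Σ i, F i)} (h : RedL φ (p :: l)) : RedL φ l :=
  ⟨h.1.tail, fun r hr => h.2 r (List.mem_cons_of_mem _ hr)⟩

theorem RedL.cons {p q : Σ i, F i} {l : List (Σ i, F i)} (h : RedL φ (q :: l))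
    (h1 : p.1 ≠ q.1) (h2 : p.2 ∉ (φ p.1).range) : RedL φ (p :: q :: l) :=
  ⟨List.IsChain.cons_cons h1 h.1, fun r hr => by
    rcases List.mem_cons.1 hr with rfl | hr
    · exact h2
    · exact h.2 r hr⟩

theorem RedL.replace {k : ι} {g g' : F k} {l : List (Σ i, F i)} (h : RedL φ (⟨k, g⟩ :: l))
    (h2 : g' ∉ (φ k).range) : RedL φ (⟨k, g'⟩ :: l) := by
  refine ⟨?_, fun r hr => ?_⟩
  · cases l with
    | nil => exact List.IsChain.singleton _
    | cons q l =>
      have h3 := h.1
      rw [List.isChain_cons_cons] at h3 ⊢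
      exact h3
  · rcases List.mem_cons.1 hr with rfl | hr
    · exact h2
    · exact h.2 r (List.mem_cons_of_mem _ hr)

/-- A reduced word with at least two letters is not in a factor. -/
theorem RedL.ne_of (hφ : ∀ i, Function.Injective (φ i)) {p q : Σ i, F i}
    {l : List (Σ i, F i)} (h : RedL φ (p :: q :: l)) (k : ι) (a : F k) :
    prodL φ (p :: q :: l) ≠ PushoutI.of k a := by
  intro he
  have h1 : PushoutI.of k a⁻¹ * prodL φ (p :: q :: l) = 1 := by
    rw [he, ← map_mul, inv_mul_cancel, map_one]
  obtain ⟨j, g⟩ := p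
  by_cases hk : k = j
  · subst hk
    rw [prodL_cons, ← mul_assoc, ← map_mul] at h1
    by_cases hc : a⁻¹ * g ∈ (φ k).range
    · obtain ⟨c, hc⟩ := hc
      have h2 : prodL φ (q :: l) ∈ (PushoutI.base φ).range := by
        refine ⟨c⁻¹, ?_⟩
        rw [← hc, PushoutI.of_apply_eq_base] at h1
        rw [map_inv]
        exact (eq_inv_of_mul_eq_one_right h1).symm
      exact absurd (h.tail.eq_nil hφ h2) (by simp)
    · have h2 := (h.replace hc).eq_nil hφ (by
        rw [prodL_cons, h1]
        exact one_mem _)
      exact absurd h2 (by simp)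
  · by_cases hc : a ∈ (φ k).range
    · obtain ⟨c, rfl⟩ := hc
      rw [PushoutI.of_apply_eq_base] at he
      exact absurd (h.eq_nil hφ ⟨c, he.symm⟩) (by simp)
    · have h2 := (h.cons (p := ⟨k, a⁻¹⟩) hk (fun h3 => hc (by
        have := inv_mem h3
        simpa using this))).eq_nil hφ (by
          rw [prodL_cons, h1]
          exact one_mem _)
      exact absurd h2 (by simp)

theorem exists_of_not_chain {α : Type} {R : α → α → Prop} (l : List α)
    (h : ¬ l.IsChain R) : ∃ l₁ a b l₂, l = l₁ ++ a :: b :: l₂ ∧ ¬ R a b := by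
  induction l with
  | nil => exact absurd List.IsChain.nil h
  | cons a t ih =>
    cases t with
    | nil => exact absurd (List.IsChain.singleton a) h
    | cons b t =>
      by_cases hab : R a b
      · have : ¬ (b :: t).IsChain R := fun h' => h (List.IsChain.cons_cons hab h')
        obtain ⟨l₁, c, d, l₂, h1, h2⟩ := ih this
        exact ⟨a :: l₁, c, d, l₂, by rw [h1]; rfl, h2⟩
      · exact ⟨[], a, b, t, rfl, hab⟩

/-- A list which is not reduced and has at least two letters can be shortened. -/
theorem shorten {l : List (Σ i, F i)} (h : ¬ RedL φ l) (h2 : 2 ≤ l.length) :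
    ∃ l', l'.length < l.length ∧ prodL φ l' = prodL φ l := by
  by_cases hc : l.IsChain (fun a b => a.1 ≠ b.1)
  · have h3 : ∃ r ∈ l, r.2 ∈ (φ r.1).range := by
      by_contra hn
      push Not at hn
      exact h ⟨hc, hn⟩
    obtain ⟨⟨k, u⟩, hr, ⟨c, hcc⟩⟩ := h3
    simp only at hcc
    obtain ⟨l₁, l₂, rfl⟩ := List.append_of_mem hr
    have hu : PushoutI.of (φ := φ) k u = PushoutI.base φ c := by
      rw [← hcc, PushoutI.of_apply_eq_base]
    by_cases hne : l₁ = []
    · subst hne
      cases l₂ with
      | nil => simp at h2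
      | cons q l₃ =>
        obtain ⟨k', v⟩ := q
        refine ⟨⟨k', φ k' c * v⟩ :: l₃, by simp, ?_⟩
        simp only [List.nil_append, prodL_cons, map_mul, mul_assoc, hu,
          PushoutI.of_apply_eq_base]
    · obtain ⟨l₃, ⟨k', v⟩, h3⟩ := (l₁.eq_nil_or_concat).resolve_left hne
      rw [List.concat_eq_append] at h3
      subst h3
      refine ⟨l₃ ++ ⟨k', v * φ k' c⟩ :: l₂, by simp, ?_⟩
      simp only [prodL_append, prodL_cons, prodL_nil, mul_one, map_mul, mul_assoc, hu,
        PushoutI.of_apply_eq_base]
  · obtain ⟨l₁, ⟨k, u⟩, ⟨k', v⟩, l₂, rfl, h3⟩ := exists_of_not_chain l hc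
    simp only [ne_eq, not_not] at h3
    subst h3
    refine ⟨l₁ ++ ⟨k, u * v⟩ :: l₂, by simp, ?_⟩
    simp only [prodL_append, prodL_cons, map_mul, mul_assoc]

theorem redL_conj {l : List (Σ i, F i)} {p q : Σ i, F i} (h : RedL φ (l ++ [q]))
    (h1 : q.1 ≠ p.1) (h2 : p.2 ∉ (φ p.1).range) :
    RedL φ (l ++ [q] ++ p :: invL (l ++ [q])) := by
  have hinv : invL (l ++ [q]) = ⟨q.1, q.2⁻¹⟩ :: invL l := by simp [invL]
  refine ⟨?_, ?_⟩
  · rw [List.isChain_append]
    refine ⟨h.1, ?_, ?_⟩
    · rw [hinv, List.isChain_cons_cons]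
      refine ⟨fun h3 => h1 h3.symm, ?_⟩
      rw [← hinv, invL, List.isChain_reverse, List.isChain_map]
      exact h.1.imp fun a b hab => fun h4 => hab h4.symm
    · intro a ha b hb
      simp only [List.getLast?_append, List.getLast?_singleton, Option.some_or, Option.mem_def,
        Option.some.injEq, List.head?_cons] at ha hb
      subst ha
      subst hb
      exact h1
  · intro r hr
    rw [List.mem_append, List.mem_cons] at hr
    rcases hr with hr | rfl | hr
    · exact h.2 r hr
    · exact h2
    · simp only [invL, List.mem_reverse, List.mem_map] at hr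
      obtain ⟨s, hs, rfl⟩ := hr
      intro h3
      apply h.2 s hs
      have := inv_mem h3
      simpa using this

theorem class_function {X : Type} (hφ : ∀ i, Function.Injective (φ i)) (cl : ∀ i, F i → X)
    (h1 : ∀ i g z, cl i (g * z * g⁻¹) = cl i z)
    (h2 : ∀ i j c, cl i (φ i c) = cl j (φ j c)) (n : ℕ) :
    ∀ (l : List (Σ i, F i)), l.length = n → ∀ (k k' : ι) (z : F k) (z' : F k'),
      prodL φ l * PushoutI.of k z * (prodL φ l)⁻¹ = PushoutI.of k' z' → cl k z = cl k' z' := by
  classical
  induction n using Nat.strong_induction_on with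
  | _ n ih =>
  intro l hl k k' z z' he
  rcases l.eq_nil_or_concat with rfl | ⟨m, ⟨j, g⟩, hm⟩
  · rw [prodL_nil, one_mul, inv_one, mul_one] at he
    by_cases hk : k = k'
    · subst hk
      rw [PushoutI.of_injective hφ k he]
    · by_cases hc : z ∈ (φ k).range
      · obtain ⟨c, rfl⟩ := hc
        rw [PushoutI.of_apply_eq_base, ← PushoutI.of_apply_eq_base φ k' c] at he
        rw [← PushoutI.of_injective hφ k' he]
        exact h2 _ _ _
      · exfalso
        have h3 : RedL φ [⟨k, z⟩] := ⟨List.IsChain.singleton _, by simpa using hc⟩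
        by_cases hc' : z' ∈ (φ k').range
        · obtain ⟨c, rfl⟩ := hc'
          rw [PushoutI.of_apply_eq_base] at he
          have := h3.eq_nil hφ (by
            rw [prodL_cons, prodL_nil, mul_one, he]
            exact ⟨c, rfl⟩)
          simp at this
        · have h4 := (h3.cons (p := ⟨k', z'⁻¹⟩) (Ne.symm hk) (fun h5 => hc' (by
            have := inv_mem h5
            simpa using this))).eq_nil hφ (by
              rw [prodL_cons, prodL_cons, prodL_nil, mul_one, he, ← map_mul, inv_mul_cancel,
                map_one]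
              exact one_mem _)
          simp at h4
  · rw [List.concat_eq_append] at hm
    subst hm
    have hlen : m.length < n := by
      rw [← hl]
      simp
    have hg : prodL φ [⟨j, g⟩] = PushoutI.of j g := by rw [prodL_cons, prodL_nil, mul_one]
    have hstep : ∀ (z₁ : F j), PushoutI.of (φ := φ) k z = PushoutI.of j z₁ →
        cl j z₁ = cl k' z' := by
      intro z₁ hz
      have h3 := ih m.length hlen m rfl j k' (g * z₁ * g⁻¹) z' (by
        rw [← he, hz, prodL_append, hg, map_mul, map_mul, map_inv, mul_inv_rev]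
        simp only [mul_assoc])
      rw [h1] at h3
      exact h3
    by_cases hk : j = k
    · subst hk
      exact hstep z rfl
    · by_cases hc : z ∈ (φ k).range
      · obtain ⟨c, rfl⟩ := hc
        rw [h2 k j c]
        apply hstep
        rw [PushoutI.of_apply_eq_base, PushoutI.of_apply_eq_base]
      · by_cases hr : RedL φ (m ++ [⟨j, g⟩])
        · exfalso
          have h3 := redL_conj (p := ⟨k, z⟩) hr hk hc
          have h4 : prodL φ (m ++ [⟨j, g⟩] ++ ⟨k, z⟩ :: invL (m ++ [⟨j, g⟩])) =
              PushoutI.of k' z' := by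
            rw [← he, prodL_append, prodL_cons, prodL_invL, mul_assoc]
          rcases m with _ | ⟨p, m⟩
          · exact h3.ne_of hφ k' z' h4
          · rcases m with _ | ⟨q, m⟩
            · exact h3.ne_of hφ k' z' h4
            · exact h3.ne_of hφ k' z' h4
        · by_cases h5 : 2 ≤ (m ++ [(⟨j, g⟩ : Σ i, F i)]).length
          · obtain ⟨l', h6, h7⟩ := shorten hr h5
            rw [hl] at h6
            apply ih l'.length h6 l' rfl k k' z z'
            rw [h7]
            exact he
          · have h6 : m = [] := by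
              cases m with
              | nil => rfl
              | cons p m => simp at h5
            subst h6
            have h7 : g ∈ (φ j).range := by
              by_contra h8
              exact hr ⟨List.IsChain.singleton _, by simpa using h8⟩
            obtain ⟨c, rfl⟩ := h7
            have h9 : prodL φ ([] ++ [(⟨j, φ j c⟩ : Σ i, F i)]) = PushoutI.of k (φ k c) := by
              rw [List.nil_append, hg, PushoutI.of_apply_eq_base, PushoutI.of_apply_eq_base]
            rw [h9] at he
            have h10 := ih 0 (by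
              rw [← hl]
              simp) [] rfl k k' (φ k c * z * (φ k c)⁻¹) z' (by
                rw [prodL_nil, one_mul, inv_one, mul_one, map_mul, map_mul, map_inv]
                exact he)
            rw [h1] at h10
            exact h10

end general

end Pool.Agent.FG
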