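import Pool.Agent.D4.Defs

/-!
# Pin bordism theories on groups with orientation character

Definitions for the second hand-in of `MP_d40431_gt`. The motivating example of a `PinTheory` is
the bordism group `Ω (G, χ)` of closed smooth 4-manifolds `X` with a map `f : X → BG`, an
identification `w₁ X = χ ∘ f` and a Pin^+ structure (spin structures on `TX ⊕ 3 f^* L`, where `L`
is the line bundle of `χ`), with `kappa` the class of the `K3` surface, `rho` the class of `RP⁴`
and `twist ε` the change of the Pin^+ structure by `f^* ε`.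
-/

namespace Pool.Agent.FG

open Pool.Agent.D4

/-- `OriData` (groups `obj χ`, maps `map f`, a class `kappa` over the trivial group) together with
an endomorphism `twist χ ε` of `obj χ` for each second character `ε`, and a class `rho` over the
group `{1, -1}` with the identity character. -/
structure PinData extends OriData where
  /-- the twist by a character -/
  twist : ∀ {G : Type} [Group G] (χ _ε : G →* ℤˣ), obj χ →+ obj χ
  /-- the distinguished class over `{1, -1}` -/
  rho : obj (MonoidHom.id ℤˣ)

/-- The image of `rho` under a homomorphism `u : {1, -1} → G` with `χ (u (-1)) = -1`. -/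
def PinData.cls (Ω : PinData) {G : Type} [Group G] {χ : G →* ℤˣ} (u : ℤˣ →* G)
    (h : χ.comp u = MonoidHom.id ℤˣ) : Ω.obj χ :=
  Ω.map u h Ω.rho

/-- The twists are a natural action of the group of characters, and conjugation by an element of
sign `1` acts trivially. -/
structure PinData.Symmetric (Ω : PinData) : Prop where
  twist_one : ∀ {G : Type} [Group G] (χ : G →* ℤˣ) (a : Ω.obj χ), Ω.twist χ 1 a = a
  twist_mul : ∀ {G : Type} [Group G] (χ ε δ : G →* ℤˣ) (a : Ω.obj χ),
    Ω.twist χ (ε * δ) a = Ω.twist χ ε (Ω.twist χ δ a)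
  map_twist : ∀ {G H : Type} [Group G] [Group H] {χ : G →* ℤˣ} {ψ : H →* ℤˣ} (f : G →* H)
    (h : ψ.comp f = χ) (ε : H →* ℤˣ) (a : Ω.obj χ),
    Ω.map f h (Ω.twist χ (ε.comp f) a) = Ω.twist ψ ε (Ω.map f h a)
  inner : ∀ {G : Type} [Group G] {χ : G →* ℤˣ} (g : G), χ g = 1 →
    ∀ (h : χ.comp (MulAut.conj g).toMonoidHom = χ) (a : Ω.obj χ),
      Ω.map (MulAut.conj g).toMonoidHom h a = a

/-- `rho` has order `16`, its eightfold is the image of `kappa` and its twist by the identity
character is `-rho`; at the group `{1, -1} × {1, -1}` with the first projection as character, a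
multiple `m` of the difference of the classes of `(-1, 1)` and `(-1, -1)` comes from the second
factor only if `8` divides `m`. -/
structure PinData.Values (Ω : PinData) : Prop where
  kappa_eq : Ω.k (MonoidHom.id ℤˣ) = (8 : ℤ) • Ω.rho
  kappa_ne : Ω.k (MonoidHom.id ℤˣ) ≠ 0
  order : (16 : ℤ) • Ω.rho = 0
  twist_rho : Ω.twist (MonoidHom.id ℤˣ) (MonoidHom.id ℤˣ) Ω.rho = -Ω.rho
  smith : ∀ (m : ℤ) (c : Ω.obj ((MonoidHom.fst ℤˣ ℤˣ).comp (MonoidHom.inr ℤˣ ℤˣ))),
    Ω.map (MonoidHom.inr ℤˣ ℤˣ) rfl c =
      m • (Ω.cls (χ := MonoidHom.fst ℤˣ ℤˣ) (MonoidHom.inl ℤˣ ℤˣ) rfl -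
        Ω.cls (χ := MonoidHom.fst ℤˣ ℤˣ) ((MonoidHom.id ℤˣ).prod (MonoidHom.id ℤˣ)) rfl) →
    (8 : ℤ) ∣ m

/-- A functor from groups with a character to `{1, -1}` to abelian groups, with twists and classes
`kappa`, `rho` with the properties `Symmetric` and `Values`, whose Mayer-Vietoris sequence is exact
at the sum for each amalgamated product (pushout of injective maps). -/
structure PinTheory extends PinData where
  functorial : toOriData.Functorial
  symmetric : toPinData.Symmetric
  values : toPinData.Values
  mayerVietoris : ∀ {C A B G : Type} [Group C] [Group A] [Group B] [Group G]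
    (i : C →* A) (j : C →* B) (f : A →* G) (g : B →* G), Pushout i j f g →
    Function.Injective i → Function.Injective j → ∀ χ : G →* ℤˣ, toOriData.ExactAt i j f g χ

/-- `a` and `b` agree up to an automorphism of the group with character, a twist and a sign. -/
def PinData.Equivalent (Ω : PinData) {G : Type} [Group G] {χ : G →* ℤˣ} (a b : Ω.obj χ) : Prop :=
  ∃ (α : G ≃* G) (h : χ.comp α.toMonoidHom = χ) (ε : G →* ℤˣ) (s : ℤˣ),
    b = (s : ℤ) • Ω.twist χ ε (Ω.map α.toMonoidHom h a)

end Pool.Agent.FG
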