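import Pool.Agent.FG.Groups

/-!
# Detection of classes of elements of order two
-/

namespace Pool.Agent.FG

open Pool.Agent.D4

section theory

variable (Ω : PinTheory)

theorem map_congr {G H : Type} [Group G] [Group H] {χ : G →* ℤˣ} {ψ : H →* ℤˣ} {f g : G →* H}
    (e : f = g) (hf : ψ.comp f = χ) (hg : ψ.comp g = χ) (a : Ω.obj χ) :
    Ω.map f hf a = Ω.map g hg a := by
  subst e
  rfl

theorem map_map {G H K : Type} [Group G] [Group H] [Group K] {χ : G →* ℤˣ} {ψ : H →* ℤˣ}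
    {φ : K →* ℤˣ} (f : G →* H) (g : H →* K) (hf : ψ.comp f = χ) (hg : φ.comp g = ψ)
    (h : φ.comp (g.comp f) = χ) (a : Ω.obj χ) :
    Ω.map g hg (Ω.map f hf a) = Ω.map (g.comp f) h a :=
  Ω.functorial.map_comp f g hf hg h a

theorem map_square {G H H' K : Type} [Group G] [Group H] [Group H'] [Group K] {χ : G →* ℤˣ}
    {ψ : H →* ℤˣ} {ψ' : H' →* ℤˣ} {φ : K →* ℤˣ} (f : G →* H) (g : H →* K) (f' : G →* H')
    (g' : H' →* K) (hf : ψ.comp f = χ) (hg : φ.comp g = ψ) (hf' : ψ'.comp f' = χ)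
    (hg' : φ.comp g' = ψ') (h : g.comp f = g'.comp f') (a : Ω.obj χ) :
    Ω.map g hg (Ω.map f hf a) = Ω.map g' hg' (Ω.map f' hf' a) := by
  have h1 : φ.comp (g.comp f) = χ := by rw [← MonoidHom.comp_assoc, hg, hf]
  have h2 : φ.comp (g'.comp f') = χ := by rw [← MonoidHom.comp_assoc, hg', hf']
  rw [map_map Ω f g hf hg h1, map_map Ω f' g' hf' hg' h2]
  exact map_congr Ω h h1 h2 a

theorem map_cls {G H : Type} [Group G] [Group H] {χ : G →* ℤˣ} {ψ : H →* ℤˣ} (u : ℤˣ →* G)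
    (hu : χ.comp u = MonoidHom.id ℤˣ) (f : G →* H) (hf : ψ.comp f = χ)
    (h : ψ.comp (f.comp u) = MonoidHom.id ℤˣ) :
    Ω.map f hf (Ω.cls u hu) = Ω.cls (f.comp u) h :=
  map_map Ω u f hu hf h Ω.rho

theorem cls_congr {G : Type} [Group G] {χ : G →* ℤˣ} {u v : ℤˣ →* G} (e : u = v)
    (hu : χ.comp u = MonoidHom.id ℤˣ) (hv : χ.comp v = MonoidHom.id ℤˣ) :
    Ω.cls u hu = Ω.cls v hv := by
  subst e
  rfl

theorem map_cls' {G H : Type} [Group G] [Group H] {χ : G →* ℤˣ} {ψ : H →* ℤˣ} (u : ℤˣ →* G)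
    (v : ℤˣ →* H) (hu : χ.comp u = MonoidHom.id ℤˣ) (hv : ψ.comp v = MonoidHom.id ℤˣ)
    (f : G →* H) (hf : ψ.comp f = χ) (e : f.comp u = v) :
    Ω.map f hf (Ω.cls u hu) = Ω.cls v hv := by
  subst e
  exact map_cls Ω u hu f hf hv

theorem exact' {C A B G : Type} [Group C] [Group A] [Group B] [Group G]
    {i : C →* A} {j : C →* B} {f : A →* G} {g : B →* G} (hp : Pushout i j f g)
    (hi : Function.Injective i) (hj : Function.Injective j)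
    {χC : C →* ℤˣ} {χA : A →* ℤˣ} {χB : B →* ℤˣ} {χG : G →* ℤˣ}
    (hA : χG.comp f = χA) (hB : χG.comp g = χB) (hCi : χA.comp i = χC) (hCj : χB.comp j = χC)
    (a : Ω.obj χA) (b : Ω.obj χB) (hab : Ω.map f hA a = Ω.map g hB b) :
    ∃ c : Ω.obj χC, Ω.map i hCi c = a ∧ Ω.map j hCj c = b := by
  subst hA
  subst hB
  subst hCi
  obtain ⟨c, hc1, hc2⟩ := Ω.mayerVietoris i j f g hp hi hj χG a b hab
  exact ⟨c, hc1, hc2 hCj⟩

/-- If `j` has a left inverse `r`, a class of `B` coming from `A` in `G` is fixed by `j ∘ r`. -/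
theorem red {C A B G : Type} [Group C] [Group A] [Group B] [Group G]
    {i : C →* A} {j : C →* B} {f : A →* G} {g : B →* G} (hp : Pushout i j f g)
    (hi : Function.Injective i) (r : B →* C) (hr : r.comp j = MonoidHom.id C)
    {χC : C →* ℤˣ} {χA : A →* ℤˣ} {χB : B →* ℤˣ} {χG : G →* ℤˣ}
    (hA : χG.comp f = χA) (hB : χG.comp g = χB) (hCi : χA.comp i = χC) (hCj : χB.comp j = χC)
    (a : Ω.obj χA) (b : Ω.obj χB) (hab : Ω.map f hA a = Ω.map g hB b)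
    (h : χB.comp (j.comp r) = χB) : Ω.map (j.comp r) h b = b := by
  have hj : Function.Injective j := by
    intro x y hxy
    have h1 := DFunLike.congr_fun hr x
    have h2 := DFunLike.congr_fun hr y
    simp only [MonoidHom.comp_apply, MonoidHom.id_apply] at h1 h2
    rw [← h1, ← h2, hxy]
  obtain ⟨c, -, rfl⟩ := exact' Ω hp hi hj hA hB hCi hCj a b hab
  have h1 : χB.comp ((j.comp r).comp j) = χC := by
    rw [MonoidHom.comp_assoc, hr, MonoidHom.comp_id, hCj]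
  rw [map_map Ω j (j.comp r) hCj h h1]
  exact map_congr Ω (by rw [MonoidHom.comp_assoc, hr, MonoidHom.comp_id]) _ _ _

end theory

section chars

variable (K : Type) [Group K]

/-- The character of `F K` which is the identity on each factor. -/
def chiF : F K →* ℤˣ := liftF fun _ => MonoidHom.id ℤˣ

omit [Group K] in
theorem chiF_lt (x : K) (u : ℤˣ) : chiF K (lt x u) = u := liftF_lt _ _ _

theorem chiF_tr (k : K) : (chiF K).comp (tr k) = chiF K := by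
  apply F_ext
  intro x
  refine MonoidHom.ext fun u => ?_
  simp only [MonoidHom.comp_apply, tr_lt, chiF_lt]

/-- The character of `U K` extending the one of `F K` and trivial on `K`. -/
def chiU : U K →* ℤˣ :=
  SemidirectProduct.lift (chiF K) 1 fun k => by
    refine MonoidHom.ext fun x => ?_
    have h := DFunLike.congr_fun (chiF_tr K k) x
    simp only [MonoidHom.comp_apply] at h
    simpa [act_apply] using h

theorem chiU_aU (x : F K) : chiU K (aU K x) = chiF K x := SemidirectProduct.lift_inl _ _ _ _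

theorem chiU_bU (k : K) : chiU K (bU K k) = 1 := SemidirectProduct.lift_inr _ _ _ _

end chars

section final

/-- The pushout square of the free product of two groups of order two. -/
theorem pushout_coprod : Pushout (1 : Unit →* ℤˣ) (1 : Unit →* ℤˣ)
    (Monoid.Coprod.inl : ℤˣ →* Monoid.Coprod ℤˣ ℤˣ) Monoid.Coprod.inr where
  comm := MonoidHom.ext fun _ => by simp
  desc H _ a b _ := by
    refine ⟨Monoid.Coprod.lift a b, ⟨Monoid.Coprod.lift_comp_inl _ _,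
      Monoid.Coprod.lift_comp_inr _ _⟩, ?_⟩
    rintro c ⟨rfl, rfl⟩
    exact Monoid.Coprod.hom_ext (by simp) (by simp)

/-- The character of the free product of two groups of order two. -/
def chiH : Monoid.Coprod ℤˣ ℤˣ →* ℤˣ := Monoid.Coprod.lift (MonoidHom.id ℤˣ) (MonoidHom.id ℤˣ)

variable (Ω : PinTheory)

/-- The difference of the classes of `(u, 1)` and `(u, -1)`. -/
def dif {G : Type} [Group G] {ψ : G × ℤˣ →* ℤˣ} (u : ℤˣ →* G)
    (h1 : ψ.comp (u.prod 1) = MonoidHom.id ℤˣ)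
    (h2 : ψ.comp (u.prod (MonoidHom.id ℤˣ)) = MonoidHom.id ℤˣ) : Ω.obj ψ :=
  Ω.cls (u.prod 1) h1 - Ω.cls (u.prod (MonoidHom.id ℤˣ)) h2

theorem map_dif {G H : Type} [Group G] [Group H] {ψ : G × ℤˣ →* ℤˣ} {φ : H × ℤˣ →* ℤˣ}
    (u : ℤˣ →* G) (v : ℤˣ →* H)
    (h1 : ψ.comp (u.prod 1) = MonoidHom.id ℤˣ)
    (h2 : ψ.comp (u.prod (MonoidHom.id ℤˣ)) = MonoidHom.id ℤˣ)
    (h3 : φ.comp (v.prod 1) = MonoidHom.id ℤˣ)
    (h4 : φ.comp (v.prod (MonoidHom.id ℤˣ)) = MonoidHom.id ℤˣ) (f : G →* H) (e : f.comp u = v)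
    (hf : φ.comp (f.prodMap (MonoidHom.id ℤˣ)) = ψ) :
    Ω.map (f.prodMap (MonoidHom.id ℤˣ)) hf (dif Ω u h1 h2) = dif Ω v h3 h4 := by
  subst e
  rw [dif, dif, map_sub, map_cls Ω _ h1 _ hf h3, map_cls Ω _ h2 _ hf h4]
  rfl

theorem four_dvd (n m : ℤ)
    (h1 : (chiH.comp (MonoidHom.fst _ ℤˣ)).comp
      ((Monoid.Coprod.inl : ℤˣ →* Monoid.Coprod ℤˣ ℤˣ).prod 1) = MonoidHom.id ℤˣ)
    (h2 : (chiH.comp (MonoidHom.fst _ ℤˣ)).comp
      ((Monoid.Coprod.inl : ℤˣ →* Monoid.Coprod ℤˣ ℤˣ).prod (MonoidHom.id ℤˣ)) = MonoidHom.id ℤˣ)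
    (h3 : (chiH.comp (MonoidHom.fst _ ℤˣ)).comp
      ((Monoid.Coprod.inr : ℤˣ →* Monoid.Coprod ℤˣ ℤˣ).prod 1) = MonoidHom.id ℤˣ)
    (h4 : (chiH.comp (MonoidHom.fst _ ℤˣ)).comp
      ((Monoid.Coprod.inr : ℤˣ →* Monoid.Coprod ℤˣ ℤˣ).prod (MonoidHom.id ℤˣ)) = MonoidHom.id ℤˣ)
    (h : n • ((2 : ℤ) • dif Ω (Monoid.Coprod.inl : ℤˣ →* Monoid.Coprod ℤˣ ℤˣ) h1 h2) +
      m • ((2 : ℤ) • dif Ω (Monoid.Coprod.inr : ℤˣ →* Monoid.Coprod ℤˣ ℤˣ) h3 h4) = 0) :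
    (4 : ℤ) ∣ n := by
  have hp := pushout_prod pushout_coprod ℤˣ
  have hi : Function.Injective ((1 : Unit →* ℤˣ).prodMap (MonoidHom.id ℤˣ)) := by
    rintro ⟨⟨⟩, x⟩ ⟨⟨⟩, y⟩ hxy
    have : x = y := congrArg Prod.snd hxy
    rw [this]
  have hA : (chiH.comp (MonoidHom.fst _ ℤˣ)).comp
      ((Monoid.Coprod.inl : ℤˣ →* Monoid.Coprod ℤˣ ℤˣ).prodMap (MonoidHom.id ℤˣ)) =
      MonoidHom.fst ℤˣ ℤˣ := by
    refine MonoidHom.ext fun x => ?_
    exact DFunLike.congr_fun h1 x.1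
  have hB : (chiH.comp (MonoidHom.fst _ ℤˣ)).comp
      ((Monoid.Coprod.inr : ℤˣ →* Monoid.Coprod ℤˣ ℤˣ).prodMap (MonoidHom.id ℤˣ)) =
      MonoidHom.fst ℤˣ ℤˣ := by
    refine MonoidHom.ext fun x => ?_
    exact DFunLike.congr_fun h3 x.1
  let d₀ : Ω.obj (MonoidHom.fst ℤˣ ℤˣ) := dif Ω (MonoidHom.id ℤˣ) rfl rfl
  have e1 : Ω.map _ hA d₀ = dif Ω _ h1 h2 :=
    map_dif Ω (MonoidHom.id ℤˣ) _ rfl rfl h1 h2 Monoid.Coprod.inl rfl hA
  have e2 : Ω.map _ hB d₀ = dif Ω _ h3 h4 :=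
    map_dif Ω (MonoidHom.id ℤˣ) _ rfl rfl h3 h4 Monoid.Coprod.inr rfl hB
  have hab : Ω.map _ hA (n • ((2 : ℤ) • d₀)) = Ω.map _ hB (-(m • ((2 : ℤ) • d₀))) := by
    rw [map_neg, map_zsmul, map_zsmul, map_zsmul, map_zsmul, e1, e2]
    exact eq_neg_of_add_eq_zero_left h
  obtain ⟨c, hc, -⟩ := exact' Ω hp hi hi hA hB
    (χC := (MonoidHom.fst ℤˣ ℤˣ).comp ((1 : Unit →* ℤˣ).prodMap (MonoidHom.id ℤˣ))) rfl rfl
    _ _ hab
  have hs : ((MonoidHom.fst ℤˣ ℤˣ).comp (MonoidHom.inr ℤˣ ℤˣ)).comp (MonoidHom.snd Unit ℤˣ) =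
      (MonoidHom.fst ℤˣ ℤˣ).comp ((1 : Unit →* ℤˣ).prodMap (MonoidHom.id ℤˣ)) := rfl
  have h8 : (8 : ℤ) ∣ n * 2 := by
    apply Ω.values.smith (n * 2) (Ω.map (MonoidHom.snd Unit ℤˣ) hs c)
    rw [map_map Ω _ _ hs rfl rfl, mul_smul]
    exact hc
  omega

end final

end Pool.Agent.FG
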