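import Pool.Agent.FG.Main
import Pool.Agent.D4.Key

/-!
# When adding `kappa` gives an equivalent class
-/

namespace Pool.Agent.FG

open Pool.Agent.D4

section basic

variable (Ω : PinTheory)

theorem hom_ext' {G : Type} [Group G] {u v : ℤˣ →* G} (h : u (-1) = v (-1)) : u = v := by
  refine MonoidHom.ext fun x => ?_
  rcases Int.units_eq_one_or x with rfl | rfl
  · rw [map_one, map_one]
  · exact h

theorem map_k' {G H : Type} [Group G] [Group H] {χ : G →* ℤˣ} {ψ : H →* ℤˣ} (f : G →* H)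
    (h : ψ.comp f = χ) : Ω.map f h (Ω.k χ) = Ω.k ψ := by
  unfold OriData.k
  rw [Ω.functorial.map_comp 1 f (MonoidHom.comp_one _) h
    (by rw [MonoidHom.comp_one, MonoidHom.comp_one])]
  exact map_congr Ω (MonoidHom.comp_one f) _ _ _

theorem k_eq_cls {G : Type} [Group G] {χ : G →* ℤˣ} (u : ℤˣ →* G)
    (h : χ.comp u = MonoidHom.id ℤˣ) : Ω.k χ = (8 : ℤ) • Ω.cls u h := by
  rw [← map_k' Ω u h, Ω.values.kappa_eq, map_zsmul]
  rfl

theorem k_ne_zero {G : Type} [Group G] (χ : G →* ℤˣ) : Ω.k χ ≠ 0 := by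
  intro h
  apply Ω.values.kappa_ne
  rw [← map_k' Ω χ (MonoidHom.id_comp χ), h, map_zero]

theorem sixteen {G : Type} [Group G] {χ : G →* ℤˣ} (u : ℤˣ →* G)
    (h : χ.comp u = MonoidHom.id ℤˣ) : (16 : ℤ) • Ω.cls u h = 0 := by
  rw [PinData.cls, ← map_zsmul, Ω.values.order, map_zero]

theorem cls_conj {G : Type} [Group G] {χ : G →* ℤˣ} (u v : ℤˣ →* G)
    (hu : χ.comp u = MonoidHom.id ℤˣ) (hv : χ.comp v = MonoidHom.id ℤˣ) (g : G)
    (h : g * u (-1) * g⁻¹ = v (-1)) : Ω.cls u hu = Ω.cls v hv := by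
  obtain ⟨z, hz1, hz2⟩ : ∃ z : G, χ z = 1 ∧ z * u (-1) * z⁻¹ = v (-1) := by
    rcases Int.units_eq_one_or (χ g) with hg | hg
    · exact ⟨g, hg, h⟩
    · refine ⟨g * u (-1), ?_, ?_⟩
      · have h1 : χ (u (-1)) = -1 := DFunLike.congr_fun hu (-1)
        rw [map_mul, hg, h1]
        rfl
      · rw [← h]
        group
  have h1 : χ.comp (MulAut.conj z).toMonoidHom = χ := by
    refine MonoidHom.ext fun x => ?_
    change χ (z * x * z⁻¹) = χ x
    rw [map_mul, map_mul, map_inv, hz1]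
    simp
  have h2 : (MulAut.conj z).toMonoidHom.comp u = v := hom_ext' hz2
  have h3 := Ω.symmetric.inner z hz1 h1 (Ω.cls u hu)
  rw [← h3]
  exact map_cls' Ω u v hu hv _ h1 h2

theorem twist_cls {G : Type} [Group G] {χ : G →* ℤˣ} (ε : G →* ℤˣ) (u : ℤˣ →* G)
    (hu : χ.comp u = MonoidHom.id ℤˣ) :
    Ω.twist χ ε (Ω.cls u hu) = ((ε (u (-1)) : ℤˣ) : ℤ) • Ω.cls u hu := by
  rw [PinData.cls, ← Ω.symmetric.map_twist u hu ε]
  rcases Int.units_eq_one_or (ε (u (-1))) with h | h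
  · have h1 : ε.comp u = 1 := hom_ext' h
    rw [h1, Ω.symmetric.twist_one, h]
    simp
  · have h1 : ε.comp u = MonoidHom.id ℤˣ := hom_ext' h
    rw [h1, Ω.values.twist_rho, h]
    simp

end basic

section main

variable {K : Type} [Group K] (Ω : PinTheory) {G : Type} [Group G] {fB : U K × U K →* G}
  {gE : E K × ℤˣ →* G}

theorem trichotomy (hp : Pushout (iE K) (MonoidHom.inl (E K) ℤˣ) fB gE) (χ : G →* ℤˣ)
    (hB : χ.comp fB = (chiU K).comp (MonoidHom.fst (U K) (U K))) (hE : χ.comp gE = psiE K)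
    (hT : ∀ k, χ.comp (TT gE k) = MonoidHom.id ℤˣ) (v : ℤˣ →* G)
    (hv : χ.comp v = MonoidHom.id ℤˣ) :
    (∃ b, Ω.cls v hv = Ω.map fB hB b) ∨
    (∃ b, Ω.cls v hv =
      Ω.map gE hE (Ω.map ((bE K).prodMap (MonoidHom.id ℤˣ)) (psiE_bE K) b)) ∨
    (∃ k, Ω.cls v hv = Ω.cls (TT gE k) (hT k)) := by
  have hfi := f_injective _ _ _ _ hp (iE_injective K) (inl_injective' (E K) ℤˣ)
  have hgi := g_injective _ _ _ _ hp (iE_injective K) (inl_injective' (E K) ℤˣ)
  have hv1 : χ (v (-1)) = -1 := DFunLike.congr_fun hv (-1)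
  have hvv : v (-1) * v (-1) = 1 := by rw [← map_mul]; simp
  obtain ⟨y, hy⟩ := classify K hp (v (-1)) hvv
  have hsq : ∀ z, y * v (-1) * y⁻¹ = z → z * z = 1 := by
    rintro z rfl
    calc y * v (-1) * y⁻¹ * (y * v (-1) * y⁻¹) = y * (v (-1) * v (-1)) * y⁻¹ := by group
      _ = 1 := by rw [hvv]; group
  have hχ : ∀ z, y * v (-1) * y⁻¹ = z → χ z = -1 := by
    rintro z rfl
    rw [map_mul, map_mul, map_inv, hv1, mul_comm (χ y), mul_assoc, mul_inv_cancel, mul_one]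
  rcases hy with ⟨b, hb⟩ | ⟨u, hu⟩ | ⟨k, hk⟩ | hf
  · left
    have h1 : b * b = 1 := by
      apply hfi
      rw [map_mul, hsq _ hb, map_one]
    have hs : D4.signHom b h1 (-1) = b := by simp [D4.signHom]
    have h2 : ((chiU K).comp (MonoidHom.fst (U K) (U K))).comp (D4.signHom b h1) =
        MonoidHom.id ℤˣ := by
      apply hom_ext'
      rw [← hB, MonoidHom.comp_apply, hs]
      exact hχ _ hb
    refine ⟨Ω.cls (D4.signHom b h1) h2, ?_⟩
    have h3 : χ.comp (fB.comp (D4.signHom b h1)) = MonoidHom.id ℤˣ := by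
      rw [← MonoidHom.comp_assoc, hB, h2]
    rw [map_cls Ω _ h2 fB hB h3]
    apply cls_conj Ω _ _ _ _ y
    rw [MonoidHom.comp_apply, hs]
    exact hb
  · right
    left
    have h1 : ((u, -1) : U K × ℤˣ) * (u, -1) = 1 := by
      have h2 := hsq _ hu
      rw [← map_mul, ← map_one gE] at h2
      have h3 := hgi h2
      have h4 : bE K u * bE K u = 1 := congrArg Prod.fst h3
      rw [← map_mul, ← map_one (bE K)] at h4
      have h5 := bE_injective K h4
      simp [h5]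
    have hs : D4.signHom (u, -1) h1 (-1) = (u, -1) := by simp [D4.signHom]
    have h2 : (psiU K).comp (D4.signHom (u, -1) h1) = MonoidHom.id ℤˣ := by
      apply hom_ext'
      rw [← psiE_bE, ← hE, MonoidHom.comp_apply, hs]
      exact hχ _ hu
    have h4 : (psiE K).comp (((bE K).prodMap (MonoidHom.id ℤˣ)).comp (D4.signHom (u, -1) h1)) =
        MonoidHom.id ℤˣ := by rw [← MonoidHom.comp_assoc, psiE_bE, h2]
    have h3 : χ.comp (gE.comp (((bE K).prodMap (MonoidHom.id ℤˣ)).comp (D4.signHom (u, -1) h1))) =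
        MonoidHom.id ℤˣ := by rw [← MonoidHom.comp_assoc, hE, h4]
    refine ⟨Ω.cls (D4.signHom (u, -1) h1) h2, ?_⟩
    rw [map_cls Ω _ h2 _ (psiE_bE K) h4, map_cls Ω _ h4 gE hE h3]
    apply cls_conj Ω _ _ _ _ y
    rw [MonoidHom.comp_apply, MonoidHom.comp_apply, hs]
    exact hu
  · right
    right
    exact ⟨k, cls_conj Ω _ _ _ _ y hk⟩
  · exfalso
    have h1 := hχ _ hf
    have h2 : χ (gE (gF K (1, -1), -1)) = chiU K (rE K (gF K (1, -1))) :=
      DFunLike.congr_fun hE (gF K (1, -1), -1)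
    rw [h2, rE_gF, map_one, map_one] at h1
    exact absurd h1 (by decide)

theorem equivalent_of_eq (χ : G →* ℤˣ)
    (hT : ∀ k, χ.comp (TT gE k) = MonoidHom.id ℤˣ) (x : Fin 4 → K) (hx : ∀ i, x i = x 0) :
    Ω.Equivalent (∑ i, Ω.cls (TT gE (x i)) (hT (x i)))
      (∑ i, Ω.cls (TT gE (x i)) (hT (x i)) + Ω.k χ) := by
  have h1 : ∀ i, Ω.cls (TT gE (x i)) (hT (x i)) = Ω.cls (TT gE (x 0)) (hT (x 0)) := fun i =>
    cls_congr Ω (by rw [hx i]) _ _
  have h2 := k_eq_cls Ω (TT gE (x 0)) (hT (x 0))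
  have h3 := sixteen Ω (TT gE (x 0)) (hT (x 0))
  have hid : χ.comp (MulEquiv.refl G).toMonoidHom = χ := rfl
  refine ⟨MulEquiv.refl G, hid, 1, -1, ?_⟩
  rw [Ω.symmetric.twist_one]
  have h4 : ∀ a : Ω.obj χ, Ω.map (MulEquiv.refl G).toMonoidHom hid a = a := fun a =>
    Ω.functorial.map_id hid a
  rw [h4]
  simp only [h1, Finset.sum_const, Finset.card_univ, Fintype.card_fin]
  rw [h2]
  generalize Ω.cls (TT gE (x 0)) (hT (x 0)) = c at h3 ⊢
  have h5 : (4 : ℕ) • c + (8 : ℤ) • c = (16 : ℤ) • c - (4 : ℕ) • c := by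
    rw [← natCast_zsmul, ← add_smul, ← sub_smul]
    norm_num
  rw [h5, h3]
  simp

theorem not_equivalent (hp : Pushout (iE K) (MonoidHom.inl (E K) ℤˣ) fB gE) (χ : G →* ℤˣ)
    (hB : χ.comp fB = (chiU K).comp (MonoidHom.fst (U K) (U K))) (hE : χ.comp gE = psiE K)
    (hT : ∀ k, χ.comp (TT gE k) = MonoidHom.id ℤˣ) (x : Fin 4 → K)
    (hx : Function.Injective x) :
    ¬ Ω.Equivalent (∑ i, Ω.cls (TT gE (x i)) (hT (x i)))
      (∑ i, Ω.cls (TT gE (x i)) (hT (x i)) + Ω.k χ) := by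
  classical
  rintro ⟨α, hα, ε, s, h⟩
  have hv : ∀ i, χ.comp (α.toMonoidHom.comp (TT gE (x i))) = MonoidHom.id ℤˣ := fun i => by
    rw [← MonoidHom.comp_assoc, hα, hT]
  obtain ⟨δ, hδ⟩ : ∃ δ : Fin 4 → ℤˣ, ∀ i,
      (s : ℤ) • Ω.twist χ ε (Ω.map α.toMonoidHom hα (Ω.cls (TT gE (x i)) (hT (x i)))) =
        (δ i : ℤ) • Ω.cls _ (hv i) := by
    refine ⟨fun i => s * ε ((α.toMonoidHom.comp (TT gE (x i))) (-1)), fun i => ?_⟩
    rw [map_cls Ω _ _ _ hα (hv i), twist_cls, smul_smul, Units.val_mul]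
  have h1 : ∑ i, Ω.cls (TT gE (x i)) (hT (x i)) + Ω.k χ = ∑ i, (δ i : ℤ) • Ω.cls _ (hv i) := by
    rw [h, map_sum, map_sum, Finset.smul_sum]
    exact Finset.sum_congr rfl fun i _ => hδ i
  have h2 : ∀ i, ∃ (o : Option K) (b₁ : Ω.obj ((chiU K).comp (MonoidHom.fst (U K) (U K))))
      (b : Ω.obj (psiU K)), Ω.cls _ (hv i) = Ω.map fB hB b₁ +
        Ω.map gE hE (Ω.map ((bE K).prodMap (MonoidHom.id ℤˣ)) (psiE_bE K) b) +
        (o.elim 0 fun k => Ω.cls (TT gE k) (hT k)) ∧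
        ∀ k, o = some k → Ω.cls _ (hv i) = Ω.cls (TT gE k) (hT k) := by
    intro i
    rcases trichotomy Ω hp χ hB hE hT _ (hv i) with ⟨b, hb⟩ | ⟨b, hb⟩ | ⟨k, hk⟩
    · exact ⟨none, b, 0, by rw [hb]; simp, by simp⟩
    · exact ⟨none, 0, b, by rw [hb]; simp, by simp⟩
    · exact ⟨some k, 0, 0, by rw [hk]; simp, by
        intro k' hk'
        rw [Option.some.injEq] at hk'
        subst hk'
        exact hk⟩
  choose o b₁ b hob hok using h2
  let H : (K →₀ ℤ) →+ Ω.obj χ := Finsupp.liftAddHom fun k =>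
    (zmultiplesHom (Ω.obj χ)) (Ω.cls (TT gE k) (hT k))
  have hH1 : ∀ k n, H (Finsupp.single k n) = n • Ω.cls (TT gE k) (hT k) := by
    intro k n
    simp [H]
  have hH2 : ∀ N, H N = N.sum fun k n => n • Ω.cls (TT gE k) (hT k) := by
    intro N
    simp only [H, Finsupp.liftAddHom_apply]
    rfl
  let N : K →₀ ℤ := ∑ i, (o i).elim 0 (fun k => Finsupp.single k (δ i : ℤ)) -
    ∑ i, Finsupp.single (x i) 1
  have hHN : H N = ∑ i, (δ i : ℤ) • ((o i).elim 0 fun k => Ω.cls (TT gE k) (hT k)) -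
      ∑ i, Ω.cls (TT gE (x i)) (hT (x i)) := by
    rw [map_sub, map_sum, map_sum]
    congr 1
    · refine Finset.sum_congr rfl fun i _ => ?_
      cases o i with
      | none => simp
      | some k => simp [hH1]
    · refine Finset.sum_congr rfl fun i _ => ?_
      rw [hH1, one_smul]
  have h3 : ∀ y, (4 : ℤ) ∣ N y := by
    apply detect Ω hp χ hB hE hT N (∑ i, (δ i : ℤ) • b₁ i - Ω.k _) (∑ i, (δ i : ℤ) • b i)
    rw [← hH2, hHN]
    rw [map_sub, map_k' Ω fB hB]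
    simp only [map_sum, map_zsmul]
    have h4 : ∑ i, (δ i : ℤ) • Ω.cls _ (hv i) = ∑ i, (δ i : ℤ) • Ω.map fB hB (b₁ i) +
        ∑ i, (δ i : ℤ) • Ω.map gE hE (Ω.map ((bE K).prodMap (MonoidHom.id ℤˣ)) (psiE_bE K)
          (b i)) + ∑ i, (δ i : ℤ) • ((o i).elim 0 fun k => Ω.cls (TT gE k) (hT k)) := by
      rw [← Finset.sum_add_distrib, ← Finset.sum_add_distrib]
      refine Finset.sum_congr rfl fun i _ => ?_
      rw [hob i]
      simp only [smul_add]
    rw [← h1] at h4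
    have h5 : ∑ i, (δ i : ℤ) • ((o i).elim 0 fun k => Ω.cls (TT gE k) (hT k)) =
        ∑ i, Ω.cls (TT gE (x i)) (hT (x i)) + Ω.k χ - (∑ i, (δ i : ℤ) • Ω.map fB hB (b₁ i) +
        ∑ i, (δ i : ℤ) • Ω.map gE hE (Ω.map ((bE K).prodMap (MonoidHom.id ℤˣ)) (psiE_bE K)
          (b i))) := by
      rw [h4]
      abel
    rw [h5]
    abel
  have hN : ∀ y, N y = ∑ i, (if o i = some y then (δ i : ℤ) else 0) -
      ∑ i, (if x i = y then (1 : ℤ) else 0) := by
    intro y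
    simp only [N, Finsupp.sub_apply, Finsupp.finsetSum_apply, Finsupp.single_apply]
    congr 1
    refine Finset.sum_congr rfl fun i _ => ?_
    cases ho : o i with
    | none => simp
    | some k => simp [Finsupp.single_apply]
  have hN' : ∀ j, (4 : ℤ) ∣ ∑ i, (if o i = some (x j) then (δ i : ℤ) else 0) - 1 := by
    intro j
    have h4 := h3 (x j)
    rw [hN] at h4
    simpa [hx.eq_iff] using h4
  have hex : ∀ j, ∃ i, o i = some (x j) := by
    intro j
    by_contra hc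
    push Not at hc
    have h4 := hN' j
    rw [Finset.sum_eq_zero (fun i _ => if_neg (hc i))] at h4
    omega
  choose f hf using hex
  have hfi : Function.Injective f := by
    intro j j' hjj
    have h4 := hf j
    rw [hjj, hf j', Option.some.injEq] at h4
    exact (hx h4).symm
  have hfs : Function.Surjective f := Finite.surjective_of_injective hfi
  have hδ1 : ∀ j, δ (f j) = 1 := by
    intro j
    have h4 := hN' j
    have h5 : ∑ i, (if o i = some (x j) then (δ i : ℤ) else 0) = (δ (f j) : ℤ) := by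
      rw [Finset.sum_eq_single (f j)]
      · rw [if_pos (hf j)]
      · intro i _ hi
        apply if_neg
        intro h6
        obtain ⟨j', rfl⟩ := hfs i
        rw [hf j', Option.some.injEq] at h6
        exact hi (by rw [hx h6])
      · simp
    rw [h5] at h4
    rcases Int.units_eq_one_or (δ (f j)) with h6 | h6
    · exact h6
    · rw [h6] at h4
      exact absurd h4 (by decide)
  have hsum : ∑ i, (δ i : ℤ) • Ω.cls _ (hv i) = ∑ i, Ω.cls (TT gE (x i)) (hT (x i)) := by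
    rw [← (Equiv.ofBijective f ⟨hfi, hfs⟩).sum_comp]
    refine Finset.sum_congr rfl fun j _ => ?_
    change (δ (f j) : ℤ) • Ω.cls _ (hv (f j)) = _
    rw [hδ1, hok (f j) (x j) (hf j)]
    simp
  rw [hsum] at h1
  exact k_ne_zero Ω χ (add_eq_left.1 h1)

end main

end Pool.Agent.FG
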