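import Pool.Agent.FG.Glue
import Pool.Agent.FG.Defs

/-!
# A pin theory

The value at `(G, χ)` is the abelian group generated by the elements `s` of `G` with `s * s = 1`
and `χ s = -1` and by `kappa`, with the relations `g s g⁻¹ = s`, `8 s = kappa`, `2 kappa = 0`.
-/

namespace Pool.Agent.FG

open Pool.Agent.D4

section values

variable {G : Type} [Group G] (χ : G →* ℤˣ)

/-- The elements of order two with sign `-1`. -/
def Inv : Type := {s : G // s * s = 1 ∧ χ s = -1}

variable {χ}

/-- Conjugation. -/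
def Inv.conj (g : G) (s : Inv χ) : Inv χ :=
  ⟨g * s.1 * g⁻¹, by
    calc g * s.1 * g⁻¹ * (g * s.1 * g⁻¹) = g * (s.1 * s.1) * g⁻¹ := by group
      _ = 1 := by rw [s.2.1]; group, by
    rw [map_mul, map_mul, map_inv, s.2.2, mul_comm (χ g), mul_assoc, mul_inv_cancel, mul_one]⟩

variable (χ)

/-- The generator of an element. -/
noncomputable def gi (s : Inv χ) : Option (Inv χ) →₀ ℤ := Finsupp.single (some s) 1

/-- The generator `kappa`. -/
noncomputable def gk : Option (Inv χ) →₀ ℤ := Finsupp.single none 1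

/-- The relations. -/
noncomputable def relS : Set (Option (Inv χ) →₀ ℤ) :=
  (Set.range fun s => (8 : ℤ) • gi χ s - gk χ) ∪ {(2 : ℤ) • gk χ} ∪
  (Set.range fun p : G × Inv χ => gi χ (p.2.conj p.1) - gi χ p.2)

/-- The value of the example. -/
abbrev Obj : Type := (Option (Inv χ) →₀ ℤ) ⧸ AddSubgroup.closure (relS χ)

/-- The class of an element. -/
noncomputable def ci (s : Inv χ) : Obj χ := QuotientAddGroup.mk (gi χ s)

/-- The class `kappa`. -/
noncomputable def ck : Obj χ := QuotientAddGroup.mk (gk χ)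

theorem rel_zero {x : Option (Inv χ) →₀ ℤ} (h : x ∈ relS χ) :
    (QuotientAddGroup.mk x : Obj χ) = 0 :=
  (QuotientAddGroup.eq_zero_iff x).2 (AddSubgroup.subset_closure h)

theorem eight_ci (s : Inv χ) : (8 : ℤ) • ci χ s = ck χ := by
  have h := rel_zero χ (x := (8 : ℤ) • gi χ s - gk χ) (Or.inl (Or.inl ⟨s, rfl⟩))
  rw [QuotientAddGroup.mk_sub, sub_eq_zero, QuotientAddGroup.mk_zsmul] at h
  exact h

theorem two_ck : (2 : ℤ) • ck χ = 0 := by
  have h := rel_zero χ (x := (2 : ℤ) • gk χ) (Or.inl (Or.inr rfl))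
  rw [QuotientAddGroup.mk_zsmul] at h
  exact h

theorem ci_conj (g : G) (s : Inv χ) : ci χ (s.conj g) = ci χ s := by
  have h := rel_zero χ (x := gi χ (s.conj g) - gi χ s) (Or.inr ⟨(g, s), rfl⟩)
  rw [QuotientAddGroup.mk_sub, sub_eq_zero] at h
  exact h

theorem neg_ck : -ck χ = ck χ := by
  have h := two_ck χ
  rw [two_zsmul] at h
  exact neg_eq_of_add_eq_zero_left h

variable {χ}

/-- The homomorphism with given values. -/
noncomputable def objLift {A : Type} [AddCommGroup A] (v : Inv χ → A) (k : A)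
    (h1 : ∀ s, (8 : ℤ) • v s = k) (h2 : (2 : ℤ) • k = 0) (h3 : ∀ g s, v (s.conj g) = v s) :
    Obj χ →+ A :=
  QuotientAddGroup.lift _ (Finsupp.liftAddHom fun o => (zmultiplesHom A) (o.elim k v)) (by
    have hle : AddSubgroup.closure (relS χ) ≤
        (Finsupp.liftAddHom fun o => (zmultiplesHom A) (o.elim k v)).ker := by
      rw [AddSubgroup.closure_le]
      rintro x ((⟨s, rfl⟩ | rfl) | ⟨⟨g, s⟩, rfl⟩)
      · simp [AddMonoidHom.mem_ker, gi, gk, map_sub, h1]
      · simp [AddMonoidHom.mem_ker, gk, h2]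
      · simp [AddMonoidHom.mem_ker, gi, map_sub, h3]
    intro x hx
    exact hle hx)

theorem objLift_ci {A : Type} [AddCommGroup A] (v : Inv χ → A) (k : A)
    (h1 : ∀ s, (8 : ℤ) • v s = k) (h2 : (2 : ℤ) • k = 0) (h3 : ∀ g s, v (s.conj g) = v s)
    (s : Inv χ) : objLift v k h1 h2 h3 (ci χ s) = v s := by
  simp [objLift, ci, gi]

theorem objLift_ck {A : Type} [AddCommGroup A] (v : Inv χ → A) (k : A)
    (h1 : ∀ s, (8 : ℤ) • v s = k) (h2 : (2 : ℤ) • k = 0) (h3 : ∀ g s, v (s.conj g) = v s) :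
    objLift v k h1 h2 h3 (ck χ) = k := by
  simp [objLift, ck, gk]

theorem obj_ext {A : Type} [AddCommGroup A] {f g : Obj χ →+ A}
    (h1 : ∀ s, f (ci χ s) = g (ci χ s)) (h2 : f (ck χ) = g (ck χ)) : f = g := by
  apply QuotientAddGroup.addMonoidHom_ext
  apply Finsupp.addHom_ext
  intro o n
  have h3 : ∀ (p : Obj χ →+ A), (p.comp (QuotientAddGroup.mk' (AddSubgroup.closure (relS χ))))
      (Finsupp.single o n) = n • (p.comp (QuotientAddGroup.mk'
        (AddSubgroup.closure (relS χ)))) (Finsupp.single o 1) := by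
    intro p
    rw [← map_zsmul, Finsupp.smul_single, smul_eq_mul, mul_one]
  rw [h3, h3]
  congr 1
  cases o with
  | none => exact h2
  | some s => exact h1 s

/-- The image of an element. -/
def Inv.map {H : Type} [Group H] {ψ : H →* ℤˣ} (f : G →* H) (h : ψ.comp f = χ) (s : Inv χ) :
    Inv ψ :=
  ⟨f s.1, by rw [← map_mul, s.2.1, map_one], by
    rw [← MonoidHom.comp_apply, h]
    exact s.2.2⟩

/-- The map of the example. -/
noncomputable def objMap {H : Type} [Group H] {ψ : H →* ℤˣ} (f : G →* H) (h : ψ.comp f = χ) :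
    Obj χ →+ Obj ψ :=
  objLift (fun s => ci ψ (s.map f h)) (ck ψ) (fun s => eight_ci ψ _) (two_ck ψ) (fun g s => by
    rw [← ci_conj ψ (f g) (s.map f h)]
    congr 1
    apply Subtype.ext
    simp [Inv.map, Inv.conj])

theorem objMap_ci {H : Type} [Group H] {ψ : H →* ℤˣ} (f : G →* H) (h : ψ.comp f = χ)
    (s : Inv χ) : objMap f h (ci χ s) = ci ψ (s.map f h) := objLift_ci _ _ _ _ _ _

theorem objMap_ck {H : Type} [Group H] {ψ : H →* ℤˣ} (f : G →* H) (h : ψ.comp f = χ) :
    objMap f h (ck χ) = ck ψ := objLift_ck _ _ _ _ _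

/-- The twist of the example. -/
noncomputable def objTwist (χ ε : G →* ℤˣ) : Obj χ →+ Obj χ :=
  objLift (fun s => ((ε s.1 : ℤˣ) : ℤ) • ci χ s) (ck χ) (fun s => by
    rw [smul_comm, eight_ci]
    rcases Int.units_eq_one_or (ε s.1) with h | h
    · rw [h]
      simp
    · rw [h]
      simp [neg_ck]) (two_ck χ) (fun g s => by
    rw [ci_conj]
    congr 2
    change ε (g * s.1 * g⁻¹) = ε s.1
    rw [map_mul, map_mul, map_inv, mul_comm (ε g), mul_assoc, mul_inv_cancel, mul_one])

theorem objTwist_ci (χ ε : G →* ℤˣ) (s : Inv χ) :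
    objTwist χ ε (ci χ s) = ((ε s.1 : ℤˣ) : ℤ) • ci χ s := objLift_ci _ _ _ _ _ _

theorem objTwist_ck (χ ε : G →* ℤˣ) : objTwist χ ε (ck χ) = ck χ := objLift_ck _ _ _ _ _

end values

/-- The element `-1` of `{1, -1}`. -/
def minusOne : Inv (MonoidHom.id ℤˣ) := ⟨-1, by simp, rfl⟩

/-- The data of the example. -/
noncomputable def exData : PinData where
  obj χ := Obj χ
  inst _ := inferInstance
  map f h := objMap f h
  kappa := ck _
  twist χ ε := objTwist χ ε
  rho := ci _ minusOne

theorem exData_k {G : Type} [Group G] (χ : G →* ℤˣ) : exData.k χ = ck χ := objMap_ck _ _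

theorem ex_functorial : exData.Functorial where
  map_id {G _ χ} h a := by
    have : objMap (MonoidHom.id G) h = AddMonoidHom.id (Obj χ) := by
      apply obj_ext
      · intro s
        rw [objMap_ci]
        rfl
      · rw [objMap_ck]
        rfl
    exact DFunLike.congr_fun this a
  map_comp {G H K _ _ _ χ ψ φ} f g hf hg h a := by
    have : (objMap g hg).comp (objMap f hf) = objMap (g.comp f) h := by
      apply obj_ext
      · intro s
        rw [AddMonoidHom.comp_apply, objMap_ci, objMap_ci, objMap_ci]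
        rfl
      · rw [AddMonoidHom.comp_apply, objMap_ck, objMap_ck, objMap_ck]
    exact DFunLike.congr_fun this a

theorem ex_symmetric : exData.Symmetric where
  twist_one {G _} χ a := by
    have : objTwist χ 1 = AddMonoidHom.id (Obj χ) := by
      apply obj_ext
      · intro s
        rw [objTwist_ci]
        simp
      · rw [objTwist_ck]
        rfl
    exact DFunLike.congr_fun this a
  twist_mul {G _} χ ε δ a := by
    have : objTwist χ (ε * δ) = (objTwist χ ε).comp (objTwist χ δ) := by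
      apply obj_ext
      · intro s
        rw [AddMonoidHom.comp_apply, objTwist_ci, objTwist_ci, map_zsmul, objTwist_ci, smul_smul]
        congr 1
        simp [mul_comm]
      · rw [AddMonoidHom.comp_apply, objTwist_ck, objTwist_ck, objTwist_ck]
    exact DFunLike.congr_fun this a
  map_twist {G H _ _ χ ψ} f h ε a := by
    have : (objMap f h).comp (objTwist χ (ε.comp f)) = (objTwist ψ ε).comp (objMap f h) := by
      apply obj_ext
      · intro s
        rw [AddMonoidHom.comp_apply, AddMonoidHom.comp_apply, objTwist_ci, map_zsmul, objMap_ci,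
          objTwist_ci]
        rfl
      · rw [AddMonoidHom.comp_apply, AddMonoidHom.comp_apply, objTwist_ck, objMap_ck, objTwist_ck]
    exact DFunLike.congr_fun this a
  inner {G _ χ} g _ h a := by
    have : objMap (MulAut.conj g).toMonoidHom h = AddMonoidHom.id (Obj χ) := by
      apply obj_ext
      · intro s
        rw [objMap_ci, AddMonoidHom.id_apply, ← ci_conj χ g s]
        rfl
      · rw [objMap_ck]
        rfl
    exact DFunLike.congr_fun this a

theorem ex_values : exData.Values where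
  kappa_eq := by
    rw [exData_k]
    exact (eight_ci _ minusOne).symm
  kappa_ne := by
    rw [exData_k]
    intro h
    let p : Obj (MonoidHom.id ℤˣ) →+ ZMod 16 := objLift (fun _ => 1) 8 (fun _ => by decide)
      (by decide) (fun _ _ => rfl)
    have h1 : p (ck _) = 8 := objLift_ck _ _ _ _ _
    have h2 : p (ck (MonoidHom.id ℤˣ)) = 0 := by
      have h3 : ck (MonoidHom.id ℤˣ) = (0 : Obj (MonoidHom.id ℤˣ)) := h
      rw [h3, map_zero]
    rw [h1] at h2
    exact absurd h2 (by decide)
  order := by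
    change (16 : ℤ) • ci _ minusOne = 0
    have h : (16 : ℤ) • ci _ minusOne = (2 : ℤ) • ((8 : ℤ) • ci _ minusOne) := by
      rw [smul_smul]
      norm_num
    rw [h, eight_ci, two_ck]
  twist_rho := by
    change objTwist _ _ (ci _ minusOne) = -ci _ minusOne
    rw [objTwist_ci]
    simp [minusOne]
  smith m c h := by
    let p : Obj (MonoidHom.fst ℤˣ ℤˣ) →+ ZMod 8 :=
      objLift (fun s => if s.1.2 = 1 then 1 else 0) 0 (fun s => by
        change (8 : ℤ) • (if s.1.2 = 1 then (1 : ZMod 8) else 0) = 0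
        split_ifs
        · decide
        · simp) (by simp) (fun g s => by
        change (if (g * s.1 * g⁻¹).2 = 1 then (1 : ZMod 8) else 0) = if s.1.2 = 1 then 1 else 0
        have : (g * s.1 * g⁻¹).2 = s.1.2 := by
          simp
        rw [this])
    have h0 : ∀ c : Obj ((MonoidHom.fst ℤˣ ℤˣ).comp (MonoidHom.inr ℤˣ ℤˣ)),
        p (objMap (MonoidHom.inr ℤˣ ℤˣ) rfl c) = 0 := by
      intro c
      have h1 : p.comp (objMap (MonoidHom.inr ℤˣ ℤˣ) rfl) = 0 := by
        apply obj_ext
        · intro s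
          exact absurd s.2.2 (by
            change ¬ ((1 : ℤˣ) = -1)
            decide)
        · rw [AddMonoidHom.comp_apply, objMap_ck]
          exact objLift_ck _ _ _ _ _
      exact DFunLike.congr_fun h1 c
    have h1 := congrArg p h
    have h2 := h0 c
    have h3 : p (exData.map (MonoidHom.inr ℤˣ ℤˣ) rfl c) = 0 := h2
    rw [h3] at h1
    have e1 : exData.cls (χ := MonoidHom.fst ℤˣ ℤˣ) (MonoidHom.inl ℤˣ ℤˣ) rfl =
        ci (MonoidHom.fst ℤˣ ℤˣ) (minusOne.map (MonoidHom.inl ℤˣ ℤˣ) rfl) := objMap_ci _ _ _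
    have e2 : exData.cls (χ := MonoidHom.fst ℤˣ ℤˣ)
        ((MonoidHom.id ℤˣ).prod (MonoidHom.id ℤˣ)) rfl =
        ci (MonoidHom.fst ℤˣ ℤˣ) (minusOne.map ((MonoidHom.id ℤˣ).prod (MonoidHom.id ℤˣ)) rfl) :=
      objMap_ci _ _ _
    rw [e1, e2] at h1
    have h4 : p (m • (ci (MonoidHom.fst ℤˣ ℤˣ) (minusOne.map (MonoidHom.inl ℤˣ ℤˣ) rfl) -
        ci (MonoidHom.fst ℤˣ ℤˣ)
          (minusOne.map ((MonoidHom.id ℤˣ).prod (MonoidHom.id ℤˣ)) rfl))) = (m : ZMod 8) := by
      rw [map_zsmul, map_sub]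
      have f1 : p (ci (MonoidHom.fst ℤˣ ℤˣ) (minusOne.map (MonoidHom.inl ℤˣ ℤˣ) rfl)) = 1 :=
        (objLift_ci _ _ _ _ _ _).trans (if_pos rfl)
      have f2 : p (ci (MonoidHom.fst ℤˣ ℤˣ)
          (minusOne.map ((MonoidHom.id ℤˣ).prod (MonoidHom.id ℤˣ)) rfl)) = 0 :=
        (objLift_ci _ _ _ _ _ _).trans (if_neg (by
          change ¬ ((-1 : ℤˣ) = 1)
          decide))
      rw [f1, f2]
      simp
    have h5 : (m : ZMod 8) = 0 := h4.symm.trans h1.symm
    exact (ZMod.intCast_zmod_eq_zero_iff_dvd m 8).1 h5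

end Pool.Agent.FG
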