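import Pool.Agent.FG.Example

/-!
# Exactness for the example
-/

namespace Pool.Agent.FG

open Pool.Agent.D4

theorem ex_glue {C A B G : Type} [Group C] [Group A] [Group B] [Group G]
    (i : C →* A) (j : C →* B) (f : A →* G) (g : B →* G) (hp : Pushout i j f g)
    (hi : Function.Injective i) (hj : Function.Injective j) (χ : G →* ℤˣ)
    (hχ : (χ.comp g).comp j = (χ.comp f).comp i) {Q : Type} [AddCommGroup Q]
    (qa : Obj (χ.comp f) →+ Q) (qb : Obj (χ.comp g) →+ Q)
    (hrel : ∀ c : Obj ((χ.comp f).comp i), qa (objMap i rfl c) = qb (objMap j hχ c)) :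
    ∃ Φ : Obj χ →+ Q, Φ.comp (objMap f rfl) = qa ∧ Φ.comp (objMap g rfl) = qb := by
  classical
  have hck : qa (ck _) = qb (ck _) := by
    have h1 := hrel (ck _)
    rw [objMap_ck, objMap_ck] at h1
    exact h1
  let clA : A → Q := fun x => if h : x * x = 1 ∧ (χ.comp f) x = -1 then qa (ci _ ⟨x, h⟩) else 0
  let clB : B → Q := fun x => if h : x * x = 1 ∧ (χ.comp g) x = -1 then qb (ci _ ⟨x, h⟩) else 0
  have hclA : ∀ s : Inv (χ.comp f), clA s.1 = qa (ci _ s) := fun s => dif_pos s.2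
  have hclB : ∀ s : Inv (χ.comp g), clB s.1 = qb (ci _ s) := fun s => dif_pos s.2
  have hconj : ∀ {H : Type} [Group H] (ψ : H →* ℤˣ) (y x : H),
      (y * x * y⁻¹ * (y * x * y⁻¹) = 1 ∧ ψ (y * x * y⁻¹) = -1) → (x * x = 1 ∧ ψ x = -1) := by
    rintro H _ ψ y x ⟨h1, h2⟩
    refine ⟨?_, ?_⟩
    · have h3 : x * x = y⁻¹ * (y * x * y⁻¹ * (y * x * y⁻¹)) * y := by group
      rw [h3, h1]
      group
    · rw [map_mul, map_mul, map_inv, mul_comm (ψ y), mul_assoc, mul_inv_cancel, mul_one] at h2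
      exact h2
  have hA : ∀ y x, clA (y * x * y⁻¹) = clA x := by
    intro y x
    by_cases h : x * x = 1 ∧ (χ.comp f) x = -1
    · have h1 := hclA (Inv.conj y ⟨x, h⟩)
      rw [ci_conj] at h1
      exact h1.trans (hclA ⟨x, h⟩).symm
    · have h1 : clA x = 0 := dif_neg h
      have h2 : clA (y * x * y⁻¹) = 0 := dif_neg fun h3 => h (hconj _ y x h3)
      rw [h1, h2]
  have hB : ∀ y x, clB (y * x * y⁻¹) = clB x := by
    intro y x
    by_cases h : x * x = 1 ∧ (χ.comp g) x = -1
    · have h1 := hclB (Inv.conj y ⟨x, h⟩)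
      rw [ci_conj] at h1
      exact h1.trans (hclB ⟨x, h⟩).symm
    · have h1 : clB x = 0 := dif_neg h
      have h2 : clB (y * x * y⁻¹) = 0 := dif_neg fun h3 => h (hconj _ y x h3)
      rw [h1, h2]
  have hC : ∀ c, clA (i c) = clB (j c) := by
    intro c
    by_cases h : c * c = 1 ∧ ((χ.comp f).comp i) c = -1
    · have h1 := hclA (Inv.map i rfl (⟨c, h⟩ : Inv ((χ.comp f).comp i)))
      have h2 := hclB (Inv.map j hχ (⟨c, h⟩ : Inv ((χ.comp f).comp i)))
      have h3 := hrel (ci _ ⟨c, h⟩)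
      rw [objMap_ci, objMap_ci] at h3
      exact h1.trans (h3.trans h2.symm)
    · have h1 : clA (i c) = 0 := dif_neg fun h3 => h ⟨hi (by rw [map_mul, h3.1, map_one]), h3.2⟩
      have h2 : clB (j c) = 0 := dif_neg fun h3 => h ⟨hj (by rw [map_mul, h3.1, map_one]), by
        rw [← hχ]
        exact h3.2⟩
      rw [h1, h2]
  obtain ⟨cl, hcl, hclf, hclg⟩ := glue hp hi hj clA clB hA hB hC
  let Φ : Obj χ →+ Q := objLift (fun s => cl s.1) (qa (ck _)) (by
      intro s
      obtain ⟨y, ⟨x, hx⟩ | ⟨x, hx⟩⟩ := conj_of_sq_eq_one i j f g hp hi hj s.1 s.2.1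
      · have hs := (s.conj y).2
        have hsx : (s.conj y).1 = f x := hx
        rw [hsx] at hs
        have h1 : x * x = 1 ∧ (χ.comp f) x = -1 :=
          ⟨f_injective i j f g hp hi hj (by rw [map_mul, hs.1, map_one]), hs.2⟩
        have h2 : cl s.1 = qa (ci _ ⟨x, h1⟩) := by
          rw [← hcl y s.1, hx, hclf]
          exact hclA ⟨x, h1⟩
        change (8 : ℤ) • cl s.1 = _
        rw [h2, ← map_zsmul, eight_ci]
      · have hs := (s.conj y).2
        have hsx : (s.conj y).1 = g x := hx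
        rw [hsx] at hs
        have h1 : x * x = 1 ∧ (χ.comp g) x = -1 :=
          ⟨g_injective i j f g hp hi hj (by rw [map_mul, hs.1, map_one]), hs.2⟩
        have h2 : cl s.1 = qb (ci _ ⟨x, h1⟩) := by
          rw [← hcl y s.1, hx, hclg]
          exact hclB ⟨x, h1⟩
        change (8 : ℤ) • cl s.1 = _
        rw [h2, ← map_zsmul, eight_ci, hck]) (by
      rw [← map_zsmul, two_ck, map_zero]) (fun y s => hcl y s.1)
  have hΦa : Φ.comp (objMap f rfl) = qa := by
    apply obj_ext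
    · intro s
      rw [AddMonoidHom.comp_apply, objMap_ci]
      have h1 : Φ (ci χ (Inv.map f rfl s)) = cl (f s.1) := objLift_ci _ _ _ _ _ _
      rw [h1, hclf, hclA]
    · rw [AddMonoidHom.comp_apply, objMap_ck]
      exact objLift_ck _ _ _ _ _
  have hΦb : Φ.comp (objMap g rfl) = qb := by
    apply obj_ext
    · intro s
      rw [AddMonoidHom.comp_apply, objMap_ci]
      have h1 : Φ (ci χ (Inv.map g rfl s)) = cl (g s.1) := objLift_ci _ _ _ _ _ _
      rw [h1, hclg, hclB]
    · rw [AddMonoidHom.comp_apply, objMap_ck]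
      exact (objLift_ck _ _ _ _ _).trans hck
  exact ⟨Φ, hΦa, hΦb⟩

theorem ex_mv {C A B G : Type} [Group C] [Group A] [Group B] [Group G]
    (i : C →* A) (j : C →* B) (f : A →* G) (g : B →* G) (hp : Pushout i j f g)
    (hi : Function.Injective i) (hj : Function.Injective j) (χ : G →* ℤˣ) :
    exData.ExactAt i j f g χ := by
  intro a b hab
  have hχ : (χ.comp g).comp j = (χ.comp f).comp i := by
    rw [MonoidHom.comp_assoc, MonoidHom.comp_assoc, hp.comm]
  let p : Obj ((χ.comp f).comp i) →+ Obj (χ.comp f) := objMap i rfl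
  let q : Obj ((χ.comp f).comp i) →+ Obj (χ.comp g) := objMap j hχ
  let L : AddSubgroup (Obj (χ.comp f) × Obj (χ.comp g)) := (p.prod (-q)).range
  have hqab : ∀ x y, QuotientAddGroup.mk' L (x, 0) = QuotientAddGroup.mk' L (0, y) ↔
      (x, -y) ∈ L := by
    intro x y
    have h : -((x, 0) : Obj (χ.comp f) × Obj (χ.comp g)) + (0, y) = -(x, -y) := by simp
    refine QuotientAddGroup.eq.trans ?_
    rw [h, neg_mem_iff]
  obtain ⟨Φ, h1, h2⟩ := ex_glue i j f g hp hi hj χ hχ
    (Q := (Obj (χ.comp f) × Obj (χ.comp g)) ⧸ L)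
    ((QuotientAddGroup.mk' L).comp (AddMonoidHom.inl _ _))
    ((QuotientAddGroup.mk' L).comp (AddMonoidHom.inr _ _))
    (fun c => (hqab _ _).2 ⟨c, rfl⟩)
  have h3 : QuotientAddGroup.mk' L (a, 0) = QuotientAddGroup.mk' L (0, b) := by
    have h4 := DFunLike.congr_fun h1 a
    have h5 := DFunLike.congr_fun h2 b
    exact h4.symm.trans ((congrArg Φ hab).trans h5)
  obtain ⟨c, hc⟩ := (hqab a b).1 h3
  have hc1 : p c = a := congrArg Prod.fst hc
  have hc2 : -q c = -b := congrArg Prod.snd hc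
  exact ⟨c, hc1, fun _ => neg_injective hc2⟩

theorem nonempty_pinTheory : Nonempty PinTheory :=
  ⟨{ toPinData := exData
     functorial := ex_functorial
     symmetric := ex_symmetric
     values := ex_values
     mayerVietoris := fun i j f g hp hi hj χ => ex_mv i j f g hp hi hj χ }⟩

end Pool.Agent.FG
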