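import Pool.Agent.FG.PresPush
import Pool.Agent.NB.Main

/-!
# The main theorem
-/

namespace Pool.Agent.FG

open Pool.Agent.D4

theorem pushout_equiv {C A B G G' : Type} [Group C] [Group A] [Group B] [Group G] [Group G']
    {i : C →* A} {j : C →* B} {f : A →* G} {g : B →* G} (hp : Pushout i j f g) (e : G ≃* G') :
    Pushout i j (e.toMonoidHom.comp f) (e.toMonoidHom.comp g) where
  comm := by rw [MonoidHom.comp_assoc, MonoidHom.comp_assoc, hp.comm]
  desc H _ a b hab := by
    obtain ⟨c, ⟨h1, h2⟩, h3⟩ := hp.desc H a b hab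
    have he : e.symm.toMonoidHom.comp e.toMonoidHom = MonoidHom.id G :=
      MonoidHom.ext fun x => e.symm_apply_apply x
    refine ⟨c.comp e.symm.toMonoidHom, ⟨?_, ?_⟩, ?_⟩
    · rw [MonoidHom.comp_assoc, ← MonoidHom.comp_assoc f, he, MonoidHom.id_comp, h1]
    · rw [MonoidHom.comp_assoc, ← MonoidHom.comp_assoc g, he, MonoidHom.id_comp, h2]
    · rintro c' ⟨h4, h5⟩
      have h6 := h3 (c'.comp e.toMonoidHom) ⟨by rw [MonoidHom.comp_assoc, h4],
        by rw [MonoidHom.comp_assoc, h5]⟩
      rw [← h6]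
      refine MonoidHom.ext fun x => ?_
      change c' x = c' (e (e.symm x))
      rw [e.apply_symm_apply]

/-- The powers of a word with exponents `0, 1, 2, 3`. -/
def pw {α : Type} (l : List α) : Fin 4 → List α := ![[], l, l ++ l, l ++ l ++ l]

theorem mk_pw {α : Type} (l : List (α × Bool)) (i : Fin 4) :
    FreeGroup.mk (pw l i) = FreeGroup.mk l ^ (i : ℕ) := by
  fin_cases i
  · simp [pw, FreeGroup.one_eq_mk]
  · simp [pw]
  · simp [pw, pow_two, FreeGroup.mul_mk]
  · simp [pw, pow_succ, FreeGroup.mul_mk]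

/-- The word `x a x⁻¹ d c`. -/
def tw {α β : Type} (f : α → β) (a d c : β) (l : List (α × Bool)) : List (β × Bool) :=
  l.map (fun p => (f p.1, p.2)) ++ ([(a, true)] ++ ((l.map (fun p => (f p.1, !p.2))).reverse ++
    [(d, true), (c, true)]))

theorem mk_tw {α β : Type} (f : α → β) (a d c : β) (l : List (α × Bool)) :
    FreeGroup.mk (tw f a d c l) = FreeGroup.map f (FreeGroup.mk l) * FreeGroup.of a *
      (FreeGroup.map f (FreeGroup.mk l))⁻¹ * FreeGroup.of d * FreeGroup.of c := by
  rw [FreeGroup.map.mk, FreeGroup.inv_mk, FreeGroup.of, FreeGroup.of, FreeGroup.of,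
    FreeGroup.mul_mk, FreeGroup.mul_mk, FreeGroup.mul_mk, FreeGroup.mul_mk]
  congr 1
  simp [tw, FreeGroup.invRev, List.map_map, Function.comp_def]

theorem computable_tw {N M : ℕ} (f : Fin N → Fin M) (a d c : Fin M)
    (w : ℕ → List (Fin N × Bool)) (hw : Computable w) (i : Fin 4) :
    Computable fun n => tw f a d c (pw (w n) i) := by
  have h1 : Computable fun n => pw (w n) i := by
    fin_cases i
    · exact Computable.const _
    · exact hw
    · exact Computable.list_append.comp hw hw
    · exact Computable.list_append.comp (Computable.list_append.comp hw hw) hw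
  have h2 : Primrec (tw f a d c) := by
    have e1 : Primrec fun l : List (Fin N × Bool) => l.map (fun p => (f p.1, p.2)) :=
      Primrec.list_map Primrec.id
        ((Primrec.dom_finite fun p : Fin N × Bool => (f p.1, p.2)).comp Primrec.snd).to₂
    have e2 : Primrec fun l : List (Fin N × Bool) => (l.map (fun p => (f p.1, !p.2))).reverse :=
      Primrec.list_reverse.comp
        (Primrec.list_map Primrec.id
          ((Primrec.dom_finite fun p : Fin N × Bool => (f p.1, !p.2)).comp Primrec.snd).to₂)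
    exact Primrec.list_append.comp e1 (Primrec.list_append.comp (Primrec.const _)
      (Primrec.list_append.comp e2 (Primrec.const _)))
  exact h2.to_comp.comp h1

theorem fixed_group :
    ∃ (N : ℕ) (rels : Set (FreeGroup (Fin N))) (χ : PresentedGroup rels →* ℤˣ)
      (t : ℕ → Fin 4 → List (Fin N × Bool)) (u : ℕ → Fin 4 → (ℤˣ →* PresentedGroup rels))
      (hu : ∀ n i, χ.comp (u n i) = MonoidHom.id ℤˣ) (p : ℕ → Prop),
      rels.Finite ∧ (∀ i, Computable fun n => t n i) ∧
      (∀ n i, u n i (-1) = PresentedGroup.mk rels (FreeGroup.mk (t n i))) ∧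
      REPred p ∧ (∀ q : ℕ → Prop, REPred q → q ≤₀ p) ∧ ¬ ComputablePred p ∧
      ∀ (Ω : PinTheory) (n : ℕ),
        Ω.Equivalent (∑ i, Ω.cls (u n i) (hu n i)) (∑ i, Ω.cls (u n i) (hu n i) + Ω.k χ) ↔
          p n := by
  obtain ⟨N₀, R, w, h1, h2, h3, h4, h5⟩ := Pool.Agent.NB.novikov_boone
  let e : Gn (Fin N₀) ≃ Fin (Fintype.card (Gn (Fin N₀))) := Fintype.equivFin _
  let ee := PresentedGroup.equivPresentedGroup (frels R) e
  have hee : ∀ g : FreeGroup (Gn (Fin N₀)), ee (PresentedGroup.mk (frels R) g) =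
      PresentedGroup.mk (FreeGroup.freeGroupCongr e '' frels R) (FreeGroup.freeGroupCongr e g) :=
    fun g => rfl
  let χ : PresentedGroup (FreeGroup.freeGroupCongr e '' frels R) →* ℤˣ :=
    (chiGP R).comp ee.symm.toMonoidHom
  have hχ : χ.comp ee.toMonoidHom = chiGP R := by
    refine MonoidHom.ext fun x => ?_
    change chiGP R (ee.symm (ee x)) = chiGP R x
    rw [ee.symm_apply_apply]
  let gE' := ee.toMonoidHom.comp (gE R)
  have hp := pushout_equiv (pushout_GP R) ee
  have hB : χ.comp (ee.toMonoidHom.comp (fB R)) =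
      (chiU (PresentedGroup R)).comp (MonoidHom.fst _ _) := by
    rw [← MonoidHom.comp_assoc, hχ, chiGP_fB]
  have hE : χ.comp (ee.toMonoidHom.comp (gE R)) = psiE (PresentedGroup R) := by
    rw [← MonoidHom.comp_assoc, hχ, chiGP_gE]
  have hT : ∀ k, χ.comp (TT (ee.toMonoidHom.comp (gE R)) k) = MonoidHom.id ℤˣ := by
    intro k
    have h6 : TT (ee.toMonoidHom.comp (gE R)) k = ee.toMonoidHom.comp (TT (gE R) k) := rfl
    rw [h6, ← MonoidHom.comp_assoc, hχ, chiGP_TT]
  let x : ℕ → Fin 4 → PresentedGroup R := fun n i =>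
    PresentedGroup.mk R (FreeGroup.mk (pw (w n) i))
  have hx : ∀ n i, x n i = PresentedGroup.mk R (FreeGroup.mk (w n)) ^ (i : ℕ) := by
    intro n i
    simp only [x]
    rw [mk_pw, map_pow]
  refine ⟨_, FreeGroup.freeGroupCongr e '' frels R, χ,
    fun n i => tw (fun s => e (Sum.inl (Sum.inl s))) (e (Sum.inr 0)) (e (Sum.inr 2))
      (e (Sum.inr 1)) (pw (w n) i),
    fun n i => TT (ee.toMonoidHom.comp (gE R)) (x n i), fun n i => hT _,
    fun n => PresentedGroup.mk R (FreeGroup.mk (w n)) = 1,
    (frels_finite h1).image _, ?_, ?_, h3, h4, Pool.Agent.NB.not_computable_of_complete _ h4, ?_⟩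
  · intro i
    exact computable_tw _ _ _ _ w h2 i
  · intro n i
    have h6 : TT (ee.toMonoidHom.comp (gE R)) (x n i) (-1) = ee (TT (gE R) (x n i) (-1)) := rfl
    rw [h6]
    simp only [x]
    rw [TT_neg_one, hee, mk_tw]
    congr 1
    simp only [map_mul, map_inv, g1, ga, gd, gc]
    have h7 : ∀ g : FreeGroup (Fin N₀), FreeGroup.freeGroupCongr e
        (FreeGroup.map (fun s => (Sum.inl (Sum.inl s) : Gn (Fin N₀))) g) =
        FreeGroup.map (fun s => e (Sum.inl (Sum.inl s))) g := by
      intro g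
      rw [FreeGroup.freeGroupCongr_apply, FreeGroup.map.comp]
      rfl
    rw [h7]
    simp
  · intro Ω n
    constructor
    · intro h
      rcases h5 n with h6 | h6
      · exact h6
      · exfalso
        refine not_equivalent Ω hp χ hB hE hT (x n) ?_ h
        intro i j hij
        rw [hx, hx] at hij
        have h7 := injective_pow_iff_not_isOfFinOrder.2 h6 hij
        exact Fin.ext h7
    · intro h
      apply equivalent_of_eq Ω χ hT
      intro i
      rw [hx, hx, h, one_pow, one_pow]

end Pool.Agent.FG
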