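import Pool.Agent.FG.Defs

/-!
# Free products of groups of order two and semidirect products

`F K` is the free product of copies of `{1, -1}` indexed by the elements of `K`, on which `K` acts
by left translation. For `π : B → K` with a section, `F K ⋊ B` is the amalgamated product of `B`
and `ker π × {1, -1}` over `ker π`.
-/

namespace Pool.Agent.FG

open Pool.Agent.D4

variable {K : Type} [Group K]

/-- The free product of copies of `{1, -1}` indexed by `K`. -/
abbrev F (K : Type) : Type := Monoid.CoprodI (fun _ : K => ℤˣ)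

/-- The factor with index `x`. -/
def lt (x : K) : ℤˣ →* F K := Monoid.CoprodI.of (M := fun _ : K => ℤˣ) (i := x)

omit [Group K] in
theorem F_ext {H : Type} [Group H] {f g : F K →* H} (h : ∀ x, f.comp (lt x) = g.comp (lt x)) :
    f = g := Monoid.CoprodI.ext_hom _ _ h

/-- The homomorphism given on the factors. -/
def liftF {H : Type} [Group H] (f : K → ℤˣ →* H) : F K →* H := Monoid.CoprodI.lift f

omit [Group K] in
theorem liftF_lt {H : Type} [Group H] (f : K → ℤˣ →* H) (x : K) (u : ℤˣ) :
    liftF f (lt x u) = f x u := Monoid.CoprodI.lift_of _ _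

/-- Left translation of the index. -/
def tr (k : K) : F K →* F K := liftF fun x => lt (k * x)

theorem tr_lt (k x : K) (u : ℤˣ) : tr k (lt x u) = lt (k * x) u := liftF_lt _ _ _

theorem tr_one : tr (1 : K) = MonoidHom.id (F K) := by
  apply F_ext
  intro x
  ext u
  simp [tr_lt]

theorem tr_mul (k l : K) : tr (k * l) = (tr k).comp (tr l) := by
  apply F_ext
  intro x
  refine MonoidHom.ext fun u => ?_
  simp only [MonoidHom.comp_apply, tr_lt, mul_assoc]

/-- The action of `K` by left translation of the index. -/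
def act (K : Type) [Group K] : K →* MulAut (F K) where
  toFun k := MonoidHom.toMulEquiv (tr k) (tr k⁻¹)
    (by rw [← tr_mul, inv_mul_cancel, tr_one]) (by rw [← tr_mul, mul_inv_cancel, tr_one])
  map_one' := by
    apply MulEquiv.ext
    intro x
    exact DFunLike.congr_fun tr_one x
  map_mul' k l := by
    apply MulEquiv.ext
    intro x
    exact DFunLike.congr_fun (tr_mul k l) x

theorem act_apply (k : K) (x : F K) : act K k x = tr k x := rfl

section semi

variable {B : Type} [Group B]

/-- The semidirect product of `F K` and `B`, where `B` acts through `π`. -/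
abbrev D (π : B →* K) : Type := F K ⋊[(act K).comp π] B

/-- The inclusion of `F K`. -/
def inF (π : B →* K) : F K →* D π := SemidirectProduct.inl

/-- The inclusion of `B`. -/
def inB (π : B →* K) : B →* D π := SemidirectProduct.inr

theorem inF_injective (π : B →* K) : Function.Injective (inF π) := SemidirectProduct.inl_injective

theorem inB_injective (π : B →* K) : Function.Injective (inB π) := SemidirectProduct.inr_injective

theorem inB_mul_inF (π : B →* K) (b : B) (x : F K) :
    inB π b * inF π x * (inB π b)⁻¹ = inF π (tr (π b) x) := by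
  have h := SemidirectProduct.inl_aut (φ := (act K).comp π) b x
  rw [inB, inF, ← map_inv, h.symm]
  rfl

theorem eq_mul (π : B →* K) (x : D π) : x = inF π x.left * inB π x.right :=
  (SemidirectProduct.inl_left_mul_inr_right x).symm

theorem D_ext {H : Type} [Group H] (π : B →* K) {f g : D π →* H}
    (h1 : f.comp (inF π) = g.comp (inF π)) (h2 : f.comp (inB π) = g.comp (inB π)) : f = g :=
  SemidirectProduct.hom_ext h1 h2

/-- Homomorphisms agreeing on `B` and on the factor with index `1` agree, if `π` is onto. -/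
theorem D_ext' {H : Type} [Group H] (π : B →* K) (hπ : Function.Surjective π) {f g : D π →* H}
    (h1 : ∀ b, f (inB π b) = g (inB π b)) (h2 : ∀ u, f (inF π (lt 1 u)) = g (inF π (lt 1 u))) :
    f = g := by
  apply D_ext
  · apply F_ext
    intro x
    refine MonoidHom.ext fun u => ?_
    obtain ⟨b, rfl⟩ := hπ x
    have h3 : inF π (lt (π b) u) = inB π b * inF π (lt 1 u) * (inB π b)⁻¹ := by
      rw [inB_mul_inF, tr_lt, mul_one]
    simp only [MonoidHom.comp_apply, h3, map_mul, map_inv, h1, h2]
  · exact MonoidHom.ext h1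

variable {C : Type} [Group C]

theorem commute_kernel (π : B →* K) (b : B) (hb : π b = 1) (x : F K) :
    Commute (inB π b) (inF π x) := by
  have h := inB_mul_inF π b x
  rw [hb, tr_one, MonoidHom.id_apply] at h
  exact mul_inv_eq_iff_eq_mul.1 h

/-- The map `(c, u) ↦ ι c * (1, u)`. -/
def gD (π : B →* K) (ι : C →* B) (hι : ∀ c, π (ι c) = 1) : C × ℤˣ →* D π :=
  MonoidHom.noncommCoprod ((inB π).comp ι) ((inF π).comp (lt 1))
    fun c _ => commute_kernel π (ι c) (hι c) _

theorem gD_apply (π : B →* K) (ι : C →* B) (hι : ∀ c, π (ι c) = 1) (c : C) (u : ℤˣ) :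
    gD π ι hι (c, u) = inB π (ι c) * inF π (lt 1 u) := rfl

theorem pushout_D (π : B →* K) (σ : K → B) (hσ : ∀ k, π (σ k) = k) (ι : C →* B)
    (hι : ∀ c, π (ι c) = 1) (hι' : ∀ b, π b = 1 → ∃ c, ι c = b) :
    Pushout ι (MonoidHom.inl C ℤˣ) (inB π) (gD π ι hι) where
  comm := by
    refine MonoidHom.ext fun c => ?_
    simp only [MonoidHom.comp_apply, MonoidHom.inl_apply, gD_apply, map_one, mul_one]
  desc H _ a b hab := by
    have hab' : ∀ c, a (ι c) = b (c, 1) := fun c => DFunLike.congr_fun hab c
    have hcomm : ∀ z : B, π z = 1 → ∀ u : ℤˣ, a z * b (1, u) * (a z)⁻¹ = b (1, u) := by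
      intro z hz u
      obtain ⟨c, rfl⟩ := hι' z hz
      rw [hab' c, mul_inv_eq_iff_eq_mul, ← map_mul, ← map_mul]
      simp
    let e : ℤˣ →* H := b.comp (MonoidHom.inr C ℤˣ)
    let f₁ : F K →* H := liftF fun k => (MulAut.conj (a (σ k))).toMonoidHom.comp e
    have hf₁ : ∀ k u, f₁ (lt k u) = a (σ k) * b (1, u) * (a (σ k))⁻¹ := fun k u => liftF_lt _ _ _
    have hcompat : ∀ z : B, f₁.comp (((act K).comp π) z).toMonoidHom =
        (MulAut.conj (a z)).toMonoidHom.comp f₁ := by
      intro z
      apply F_ext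
      intro k
      refine MonoidHom.ext fun u => ?_
      change f₁ (tr (π z) (lt k u)) = a z * f₁ (lt k u) * (a z)⁻¹
      rw [tr_lt, hf₁, hf₁]
      have h1 : π ((σ (π z * k))⁻¹ * (z * σ k)) = 1 := by
        rw [map_mul, map_inv, map_mul, hσ, hσ, inv_mul_cancel]
      have h2 := hcomm _ h1 u
      simp only [map_mul, map_inv, mul_inv_rev, inv_inv] at h2
      calc a (σ (π z * k)) * b (1, u) * (a (σ (π z * k)))⁻¹
          = a (σ (π z * k)) * ((a (σ (π z * k)))⁻¹ * (a z * a (σ k)) * b (1, u) *
            ((a (σ k))⁻¹ * (a z)⁻¹ * a (σ (π z * k)))) * (a (σ (π z * k)))⁻¹ := by rw [h2]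
        _ = a z * (a (σ k) * b (1, u) * (a (σ k))⁻¹) * (a z)⁻¹ := by group
    refine ⟨SemidirectProduct.lift f₁ a hcompat, ⟨?_, ?_⟩, ?_⟩
    · exact SemidirectProduct.lift_comp_inr _ _ _
    · refine MonoidHom.ext fun x => ?_
      obtain ⟨c, u⟩ := x
      have h1 : SemidirectProduct.lift f₁ a hcompat (inB π (ι c)) = a (ι c) :=
        SemidirectProduct.lift_inr _ _ _ _
      have h2 : SemidirectProduct.lift f₁ a hcompat (inF π (lt 1 u)) = f₁ (lt 1 u) :=
        SemidirectProduct.lift_inl _ _ _ _
      rw [MonoidHom.comp_apply, gD_apply, map_mul, h1, h2, hf₁, hcomm _ (hσ 1), hab', ← map_mul]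
      simp
    · rintro c ⟨hc1, hc2⟩
      have hsurj : Function.Surjective π := fun k => ⟨σ k, hσ k⟩
      apply D_ext' π hsurj
      · intro b'
        rw [← MonoidHom.comp_apply, hc1]
        exact (SemidirectProduct.lift_inr _ _ _ _).symm
      · intro u
        have h2 : SemidirectProduct.lift f₁ a hcompat (inF π (lt 1 u)) = f₁ (lt 1 u) :=
          SemidirectProduct.lift_inl _ _ _ _
        have h3 : inF π (lt 1 u) = gD π ι hι (1, u) := by
          rw [gD_apply, map_one, map_one, one_mul]
        rw [h2, hf₁, hcomm _ (hσ 1), h3, ← MonoidHom.comp_apply, hc2]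

end semi

/-- The product of a pushout square with a group. -/
theorem pushout_prod {C A B G : Type} [Group C] [Group A] [Group B] [Group G]
    {i : C →* A} {j : C →* B} {f : A →* G} {g : B →* G} (hp : Pushout i j f g)
    (T : Type) [Group T] :
    Pushout (i.prodMap (MonoidHom.id T)) (j.prodMap (MonoidHom.id T))
      (f.prodMap (MonoidHom.id T)) (g.prodMap (MonoidHom.id T)) where
  comm := by
    refine MonoidHom.ext fun x => ?_
    exact Prod.ext (DFunLike.congr_fun hp.comm x.1) rfl
  desc H _ a b hab := by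
    have hab' : ∀ c t, a (i c, t) = b (j c, t) := fun c t => DFunLike.congr_fun hab (c, t)
    obtain ⟨c₀, ⟨hc1, hc2⟩, hc3⟩ := hp.desc H (a.comp (MonoidHom.inl A T))
      (b.comp (MonoidHom.inl B T)) (MonoidHom.ext fun c => hab' c 1)
    have hc1' : ∀ x, c₀ (f x) = a (x, 1) := fun x => DFunLike.congr_fun hc1 x
    have hc2' : ∀ x, c₀ (g x) = b (x, 1) := fun x => DFunLike.congr_fun hc2 x
    have ht : ∀ t, a (1, t) = b (1, t) := fun t => by
      have := hab' 1 t
      simpa using this
    have hcomm : ∀ x t, Commute (c₀ x) (a (1, t)) := by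
      intro x t
      have h1 := hc3 ((MulAut.conj (a (1, t))).toMonoidHom.comp c₀) ⟨by
        refine MonoidHom.ext fun y => ?_
        change a (1, t) * c₀ (f y) * (a (1, t))⁻¹ = a (y, 1)
        rw [hc1', mul_inv_eq_iff_eq_mul, ← map_mul, ← map_mul]
        simp, by
        refine MonoidHom.ext fun y => ?_
        change a (1, t) * c₀ (g y) * (a (1, t))⁻¹ = b (y, 1)
        rw [hc2', ht, mul_inv_eq_iff_eq_mul, ← map_mul, ← map_mul]
        simp⟩
      have h2 : a (1, t) * c₀ x * (a (1, t))⁻¹ = c₀ x := DFunLike.congr_fun h1 x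
      exact (mul_inv_eq_iff_eq_mul.1 h2).symm
    refine ⟨MonoidHom.noncommCoprod c₀ (a.comp (MonoidHom.inr A T)) hcomm, ⟨?_, ?_⟩, ?_⟩
    · refine MonoidHom.ext fun x => ?_
      obtain ⟨x, t⟩ := x
      change c₀ (f x) * a (1, t) = a (x, t)
      rw [hc1', ← map_mul]
      simp
    · refine MonoidHom.ext fun x => ?_
      obtain ⟨x, t⟩ := x
      change c₀ (g x) * a (1, t) = b (x, t)
      rw [hc2', ht, ← map_mul]
      simp
    · rintro c ⟨h1, h2⟩
      have h1' : ∀ x t, c (f x, t) = a (x, t) := fun x t => DFunLike.congr_fun h1 (x, t)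
      have h2' : ∀ x t, c (g x, t) = b (x, t) := fun x t => DFunLike.congr_fun h2 (x, t)
      have h3 : c.comp (MonoidHom.inl G T) = c₀ := hc3 _ ⟨MonoidHom.ext fun x => h1' x 1,
        MonoidHom.ext fun x => h2' x 1⟩
      refine MonoidHom.ext fun x => ?_
      obtain ⟨x, t⟩ := x
      change c (x, t) = c₀ x * a (1, t)
      have h4 := h1' 1 t
      rw [map_one] at h4
      rw [← h3, ← h4]
      change c (x, t) = c (x, 1) * c (1, t)
      rw [← map_mul]
      simp

end Pool.Agent.FG
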