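import Pool.Agent.FG.ClassFn

/-!
# Gluing class functions on an amalgamated product
-/

namespace Pool.Agent.FG

open Pool.Agent.D4 Monoid

section two

variable {C A B : Type} [Group C] [Group A] [Group B]

/-- The two factors. -/
def Fac (A B : Type) : Bool → Type
  | true => A
  | false => B

instance instFac (b : Bool) : Group (Fac A B b) :=
  match b with
  | true => inferInstanceAs (Group A)
  | false => inferInstanceAs (Group B)

/-- The two maps. -/
def two (i : C →* A) (j : C →* B) : ∀ b, C →* Fac A B b
  | true => i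
  | false => j

theorem two_injective {i : C →* A} {j : C →* B}
    (hi : Function.Injective i) (hj : Function.Injective j) (b : Bool) :
    Function.Injective (two i j b) := by
  cases b
  · exact hj
  · exact hi

/-- The first inclusion. -/
def ofA (i : C →* A) (j : C →* B) : A →* PushoutI (two i j) :=
  PushoutI.of (φ := two i j) true

/-- The second inclusion. -/
def ofB (i : C →* A) (j : C →* B) : B →* PushoutI (two i j) :=
  PushoutI.of (φ := two i j) false

theorem of_comm (i : C →* A) (j : C →* B) : (ofA i j).comp i = (ofB i j).comp j := by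
  have h1 := PushoutI.of_comp_eq_base (φ := two i j) true
  have h2 := PushoutI.of_comp_eq_base (φ := two i j) false
  exact h1.trans h2.symm

/-- The class functions on the two factors. -/
def clTwo {X : Type} (clA : A → X) (clB : B → X) : ∀ b, Fac A B b → X
  | true => clA
  | false => clB

theorem clTwo_conj {X : Type} {clA : A → X} {clB : B → X}
    (hA : ∀ g z, clA (g * z * g⁻¹) = clA z) (hB : ∀ g z, clB (g * z * g⁻¹) = clB z) :
    ∀ (b : Bool) (g z : Fac A B b), clTwo clA clB b (g * z * g⁻¹) = clTwo clA clB b z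
  | true => hA
  | false => hB

theorem clTwo_base {X : Type} {clA : A → X} {clB : B → X} {i : C →* A} {j : C →* B}
    (hC : ∀ c, clA (i c) = clB (j c)) :
    ∀ (b b' : Bool) (c : C), clTwo clA clB b (two i j b c) = clTwo clA clB b' (two i j b' c)
  | true, true => fun _ => rfl
  | true, false => hC
  | false, true => fun c => (hC c).symm
  | false, false => fun _ => rfl

end two

theorem glue {C A B G : Type} [Group C] [Group A] [Group B] [Group G]
    {i : C →* A} {j : C →* B} {f : A →* G} {g : B →* G} (hp : Pushout i j f g)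
    (hi : Function.Injective i) (hj : Function.Injective j) {X : Type} [Nonempty X]
    (clA : A → X) (clB : B → X) (hA : ∀ g z, clA (g * z * g⁻¹) = clA z)
    (hB : ∀ g z, clB (g * z * g⁻¹) = clB z) (hC : ∀ c, clA (i c) = clB (j c)) :
    ∃ cl : G → X, (∀ g x, cl (g * x * g⁻¹) = cl x) ∧ (∀ a, cl (f a) = clA a) ∧
      ∀ b, cl (g b) = clB b := by
  classical
  obtain ⟨c, ⟨hc1, hc2⟩, -⟩ := hp.desc _ (ofA i j) (ofB i j) (of_comm i j)
  have hc1' : ∀ a, c (f a) = ofA i j a := fun a => DFunLike.congr_fun hc1 a
  have hc2' : ∀ a, c (g a) = ofB i j a := fun a => DFunLike.congr_fun hc2 a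
  have key : ∀ (y : PushoutI (two i j)) (k k' : Bool) (z : Fac A B k) (z' : Fac A B k'),
      y * PushoutI.of k z * y⁻¹ = PushoutI.of k' z' →
        clTwo clA clB k z = clTwo clA clB k' z' := by
    intro y k k' z z' h
    obtain ⟨l, rfl⟩ := exists_prodL y
    exact class_function (two_injective hi hj) (clTwo clA clB) (clTwo_conj hA hB)
      (clTwo_base hC) l.length l rfl k k' z z' h
  let P : G → X → Prop := fun x v => (∃ y a, y * x * y⁻¹ = f a ∧ clA a = v) ∨
    (∃ y b, y * x * y⁻¹ = g b ∧ clB b = v)
  have hP : ∀ x v v', P x v → P x v' → v = v' := by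
    have hconj : ∀ (x y y' z z' : G), y * x * y⁻¹ = z → y' * x * y'⁻¹ = z' →
        (y' * y⁻¹) * z * (y' * y⁻¹)⁻¹ = z' := by
      rintro x y y' z z' rfl rfl
      group
    rintro x v v' (⟨y, a, h1, rfl⟩ | ⟨y, b, h1, rfl⟩) (⟨y', a', h1', rfl⟩ | ⟨y', b', h1', rfl⟩)
    · have h := congrArg c (hconj x y y' _ _ h1 h1')
      rw [map_mul, map_mul, map_inv, hc1', hc1'] at h
      exact key _ true true a a' h
    · have h := congrArg c (hconj x y y' _ _ h1 h1')
      rw [map_mul, map_mul, map_inv, hc1', hc2'] at h
      exact key _ true false a b' h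
    · have h := congrArg c (hconj x y y' _ _ h1 h1')
      rw [map_mul, map_mul, map_inv, hc2', hc1'] at h
      exact key _ false true b a' h
    · have h := congrArg c (hconj x y y' _ _ h1 h1')
      rw [map_mul, map_mul, map_inv, hc2', hc2'] at h
      exact key _ false false b b' h
  have hPc : ∀ z x v, P (z * x * z⁻¹) v ↔ P x v := by
    intro z x v
    constructor
    · rintro (⟨y, a, h1, h2⟩ | ⟨y, b, h1, h2⟩)
      · exact Or.inl ⟨y * z, a, by rw [← h1]; group, h2⟩
      · exact Or.inr ⟨y * z, b, by rw [← h1]; group, h2⟩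
    · rintro (⟨y, a, h1, h2⟩ | ⟨y, b, h1, h2⟩)
      · exact Or.inl ⟨y * z⁻¹, a, by rw [← h1]; group, h2⟩
      · exact Or.inr ⟨y * z⁻¹, b, by rw [← h1]; group, h2⟩
  let ev : (X → Prop) → X := fun Q => if h : ∃ v, Q v then h.choose else Classical.arbitrary X
  have hev : ∀ x v, P x v → ev (P x) = v := by
    intro x v h
    have h1 : ∃ v, P x v := ⟨v, h⟩
    simp only [ev]
    rw [dif_pos h1]
    exact hP x _ _ h1.choose_spec h
  refine ⟨fun x => ev (P x), ?_, ?_, ?_⟩
  · intro z x
    have : P (z * x * z⁻¹) = P x := funext fun v => propext (hPc z x v)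
    simp only [this]
  · intro a
    exact hev _ _ (Or.inl ⟨1, a, by group, rfl⟩)
  · intro b
    exact hev _ _ (Or.inr ⟨1, b, by group, rfl⟩)

end Pool.Agent.FG
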