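import Pool.Agent.FG.Free
import Pool.Agent.D4.Torsion

/-!
# The groups `U K`, `E K` and elements of order two

`U K = {1, -1} * K`, `E K` is the fibre product of two copies of `U K` over `K`, and `G` is the
amalgamated product of `U K × U K` and `E K × {1, -1}` over `E K`.
-/

namespace Pool.Agent.FG

open Pool.Agent.D4

variable (K : Type) [Group K]

/-- The free product of `{1, -1}` and `K`, as the semidirect product of `F K` and `K`. -/
abbrev U : Type := D (MonoidHom.id K)

/-- The projection of `U K` to `K`. -/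
def piU : U K →* K := SemidirectProduct.rightHom

/-- The inclusion of `F K` in `U K`. -/
def aU : F K →* U K := inF (MonoidHom.id K)

/-- The inclusion of `K` in `U K`. -/
def bU : K →* U K := inB (MonoidHom.id K)

theorem piU_bU (k : K) : piU K (bU K k) = k := SemidirectProduct.rightHom_inr _

theorem piU_aU (x : F K) : piU K (aU K x) = 1 := SemidirectProduct.rightHom_inl _

theorem exists_aU (u : U K) (hu : piU K u = 1) : ∃ x, aU K x = u := by
  refine ⟨u.left, ?_⟩
  have h := eq_mul (MonoidHom.id K) u
  have h2 : u.right = 1 := hu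
  rw [h2, map_one, mul_one] at h
  exact h.symm

/-- The fibre product of two copies of `U K` over `K`, as the semidirect product of `F K` and
`U K`. -/
abbrev E : Type := D (piU K)

/-- The inclusion of `U K` in `E K`. -/
def bE : U K →* E K := inB (piU K)

/-- The map `(x, u) ↦ x * (1, u)` from `F K × {1, -1}` to `E K`. -/
def gF : F K × ℤˣ →* E K := gD (piU K) (aU K) (piU_aU K)

theorem pushout_U : Pushout (1 : Unit →* K) (MonoidHom.inl Unit ℤˣ) (bU K)
    (gD (MonoidHom.id K) (1 : Unit →* K) fun _ => rfl) :=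
  pushout_D (MonoidHom.id K) id (fun _ => rfl) 1 _ fun b hb => ⟨(), hb.symm⟩

theorem pushout_E : Pushout (aU K) (MonoidHom.inl (F K) ℤˣ) (bE K) (gF K) :=
  pushout_D (piU K) (bU K) (piU_bU K) (aU K) (piU_aU K) (exists_aU K)

theorem aU_injective : Function.Injective (aU K) := inF_injective _

theorem bU_injective : Function.Injective (bU K) := inB_injective _

theorem bE_injective : Function.Injective (bE K) := inB_injective _

theorem inl_injective' (A B : Type) [Group A] [Group B] :
    Function.Injective (MonoidHom.inl A B) := fun _ _ h => congrArg Prod.fst h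

/-- The second projection of the fibre product. -/
def sE : E K →* U K :=
  SemidirectProduct.lift (aU K) ((bU K).comp (piU K)) fun u => by
    refine MonoidHom.ext fun x => ?_
    exact (inB_mul_inF (MonoidHom.id K) (piU K u) x).symm

theorem sE_inF (x : F K) : sE K (inF (piU K) x) = aU K x := SemidirectProduct.lift_inl _ _ _ _

theorem sE_bE (u : U K) : sE K (bE K u) = bU K (piU K u) := SemidirectProduct.lift_inr _ _ _ _

/-- The first projection of the fibre product. -/
def rE : E K →* U K := SemidirectProduct.rightHom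

theorem rE_inF (x : F K) : rE K (inF (piU K) x) = 1 := SemidirectProduct.rightHom_inl _

theorem rE_bE (u : U K) : rE K (bE K u) = u := SemidirectProduct.rightHom_inr _

/-- The inclusion of the fibre product. -/
def iE : E K →* U K × U K := (rE K).prod (sE K)

theorem iE_injective : Function.Injective (iE K) := by
  intro x y h
  have h1 : rE K x = rE K y := congrArg Prod.fst h
  have h2 : sE K x = sE K y := congrArg Prod.snd h
  have hx := eq_mul (piU K) x
  have hy := eq_mul (piU K) y
  have h3 : x.right = y.right := h1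
  rw [hx, hy] at h2
  rw [map_mul, map_mul, sE_inF, sE_inF, h3] at h2
  have h4 := aU_injective K (mul_right_cancel h2)
  rw [hx, hy, h3, h4]

/-- An element of order two of `F K` is conjugate to the generator of a factor. -/
theorem F_involution (x : F K) (hx : x * x = 1) :
    x = 1 ∨ ∃ (y : F K) (k : K), x = y * lt k (-1) * y⁻¹ := by
  have h1 : aU K x * aU K x = 1 := by rw [← map_mul, hx, map_one]
  obtain ⟨y, hy⟩ := conj_of_sq_eq_one _ _ _ _ (pushout_U K)
    (fun a b _ => Subsingleton.elim a b) (inl_injective' Unit ℤˣ) _ h1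
  rcases hy with ⟨k, hk⟩ | ⟨⟨⟨⟩, u⟩, hu⟩
  · have h2 := congrArg (piU K) hk
    rw [map_mul, map_mul, map_inv, piU_aU, mul_one, mul_inv_cancel, piU_bU] at h2
    rw [← h2, map_one] at hk
    left
    apply aU_injective K
    rw [map_one]
    have h3 : aU K x = y⁻¹ * (y * aU K x * y⁻¹) * y := by group
    rw [h3, hk]
    group
  · rw [gD_apply, map_one, map_one, one_mul] at hu
    rcases Int.units_eq_one_or u with rfl | rfl
    · left
      apply aU_injective K
      rw [map_one, map_one] at hu
      rw [map_one]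
      have h3 : aU K x = y⁻¹ * (y * aU K x * y⁻¹) * y := by group
      rw [h3, hu]
      group
    · right
      obtain ⟨z, k, hz⟩ : ∃ z k, y⁻¹ = aU K z * bU K k :=
        ⟨_, _, eq_mul (MonoidHom.id K) y⁻¹⟩
      have h3 : aU K x = y⁻¹ * (y * aU K x * y⁻¹) * (y⁻¹)⁻¹ := by group
      refine ⟨z, k, ?_⟩
      apply aU_injective K
      have h5 : aU K (lt k (-1)) = bU K k * aU K (lt 1 (-1)) * (bU K k)⁻¹ := by
        have := inB_mul_inF (MonoidHom.id K) k (lt 1 (-1))
        rw [MonoidHom.id_apply, tr_lt, mul_one] at this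
        exact this.symm
      have h6 : aU K (lt 1 (-1)) = y * aU K x * y⁻¹ := hu.symm
      rw [h3, ← h6, hz, map_mul, map_mul, map_inv, h5]
      group

/-- An element of order two of the amalgamated product of `U K × U K` and `E K × {1, -1}` over
`E K` is conjugate to an element of one of three kinds. -/
theorem classify {G : Type} [Group G] {fB : U K × U K →* G} {gE : E K × ℤˣ →* G}
    (hp : Pushout (iE K) (MonoidHom.inl (E K) ℤˣ) fB gE) (x : G) (hx : x * x = 1) :
    ∃ y : G, (∃ b, y * x * y⁻¹ = fB b) ∨ (∃ u : U K, y * x * y⁻¹ = gE (bE K u, -1)) ∨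
      (∃ k : K, y * x * y⁻¹ = gE (gF K (lt k (-1), -1), -1)) ∨
      (y * x * y⁻¹ = gE (gF K (1, -1), -1)) := by
  obtain ⟨y, hy⟩ := conj_of_sq_eq_one _ _ _ _ hp (iE_injective K) (inl_injective' (E K) ℤˣ) x hx
  have hg := g_injective _ _ _ _ hp (iE_injective K) (inl_injective' (E K) ℤˣ)
  rcases hy with ⟨b, hb⟩ | ⟨⟨e, s⟩, he⟩
  · exact ⟨y, Or.inl ⟨b, hb⟩⟩
  · have h1 : e * e = 1 := by
      have h2 : gE (e, s) * gE (e, s) = 1 := by
        rw [← he]
        calc y * x * y⁻¹ * (y * x * y⁻¹) = y * (x * x) * y⁻¹ := by group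
          _ = 1 := by rw [hx]; group
      rw [← map_mul, ← map_one gE] at h2
      exact congrArg Prod.fst (hg h2)
    rcases Int.units_eq_one_or s with rfl | rfl
    · refine ⟨y, Or.inl ⟨iE K e, ?_⟩⟩
      rw [he]
      exact (DFunLike.congr_fun hp.comm e).symm
    · obtain ⟨z, hz⟩ := conj_of_sq_eq_one _ _ _ _ (pushout_E K) (aU_injective K)
        (inl_injective' (F K) ℤˣ) e h1
      have hg2 := g_injective _ _ _ _ (pushout_E K) (aU_injective K) (inl_injective' (F K) ℤˣ)
      have hconj : ∀ (z' e' : E K), z' * e * z'⁻¹ = e' →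
          (gE (z', 1) * y) * x * (gE (z', 1) * y)⁻¹ = gE (e', -1) := by
        intro z' e' h
        have h2 : (gE (z', 1) * y) * x * (gE (z', 1) * y)⁻¹ =
            gE (z', 1) * (y * x * y⁻¹) * (gE (z', 1))⁻¹ := by group
        rw [h2, he, ← map_inv, ← map_mul, ← map_mul, ← h]
        simp
      rcases hz with ⟨u, hu⟩ | ⟨⟨f, s⟩, hf⟩
      · exact ⟨_, Or.inr (Or.inl ⟨u, hconj z _ hu⟩)⟩
      · have h3 : f * f = 1 := by
          have h2 : gF K (f, s) * gF K (f, s) = 1 := by
            rw [← hf]
            calc z * e * z⁻¹ * (z * e * z⁻¹) = z * (e * e) * z⁻¹ := by group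
              _ = 1 := by rw [h1]; group
          rw [← map_mul, ← map_one (gF K)] at h2
          exact congrArg Prod.fst (hg2 h2)
        rcases Int.units_eq_one_or s with rfl | rfl
        · refine ⟨_, Or.inr (Or.inl ⟨aU K f, hconj z _ ?_⟩)⟩
          rw [hf]
          exact (DFunLike.congr_fun (pushout_E K).comm f).symm
        · rcases F_involution K f h3 with rfl | ⟨φ, k, hφ⟩
          · exact ⟨_, Or.inr (Or.inr (Or.inr (hconj z _ hf)))⟩
          · refine ⟨_, Or.inr (Or.inr (Or.inl ⟨k, hconj (gF K (φ⁻¹, 1) * z) _ ?_⟩))⟩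
            have h4 : gF K (φ⁻¹, 1) * z * e * (gF K (φ⁻¹, 1) * z)⁻¹ =
              gF K (φ⁻¹, 1) * (z * e * z⁻¹) * (gF K (φ⁻¹, 1))⁻¹ := by group
            rw [h4, hf, ← map_inv, ← map_mul, ← map_mul]
            congr 1
            rw [hφ]
            simp only [Prod.mk_mul_mk, Prod.inv_mk, inv_one, mul_one, one_mul, inv_inv,
              Prod.mk.injEq, and_true]
            group

end Pool.Agent.FG
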