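import Pool.Agent.FG.Detect

/-!
# The coefficients modulo four
-/

namespace Pool.Agent.FG

open Pool.Agent.D4

section

variable (K : Type) [Group K]

/-- The character of `(F K × {1, -1}) × {1, -1}`. -/
def psiF : (F K × ℤˣ) × ℤˣ →* ℤˣ :=
  ((chiF K).comp (MonoidHom.fst (F K) ℤˣ)).comp (MonoidHom.fst (F K × ℤˣ) ℤˣ)

/-- The character of `U K × {1, -1}`. -/
def psiU : U K × ℤˣ →* ℤˣ := (chiU K).comp (MonoidHom.fst (U K) ℤˣ)

/-- The character of `E K × {1, -1}`. -/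
def psiE : E K × ℤˣ →* ℤˣ := ((chiU K).comp (rE K)).comp (MonoidHom.fst (E K) ℤˣ)

theorem psiE_bE : (psiE K).comp ((bE K).prodMap (MonoidHom.id ℤˣ)) = psiU K := by
  refine MonoidHom.ext fun x => ?_
  change chiU K (rE K (bE K x.1)) = chiU K x.1
  rw [rE_bE]

theorem rE_gF (f : F K) (u : ℤˣ) : rE K (gF K (f, u)) = aU K f := by
  change rE K (bE K (aU K f) * inF (piU K) (lt 1 u)) = aU K f
  rw [map_mul, rE_bE, rE_inF, mul_one]

theorem psiE_gF : (psiE K).comp ((gF K).prodMap (MonoidHom.id ℤˣ)) = psiF K := by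
  refine MonoidHom.ext fun x => ?_
  obtain ⟨⟨f, u⟩, v⟩ := x
  change chiU K (rE K (gF K (f, u))) = chiF K f
  rw [rE_gF, chiU_aU]

variable {K}

/-- The homomorphism `u ↦ ((u_k, u), u)`. -/
def zz (k : K) : ℤˣ →* (F K × ℤˣ) × ℤˣ := ((lt k).prod (MonoidHom.id ℤˣ)).prod (MonoidHom.id ℤˣ)

theorem psiF_zz (k : K) : (psiF K).comp (zz k) = MonoidHom.id ℤˣ :=
  MonoidHom.ext fun _ => chiF_lt K k _

/-- The homomorphism with value `x a x⁻¹ d c` at `-1`. -/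
def TT {G : Type} [Group G] (gE : E K × ℤˣ →* G) (k : K) : ℤˣ →* G :=
  gE.comp (((gF K).prodMap (MonoidHom.id ℤˣ)).comp (zz k))

/-- Kill the second factor. -/
def killP (A : Type) [Group A] : A × ℤˣ →* A × ℤˣ := (MonoidHom.inl A ℤˣ).comp (MonoidHom.fst A ℤˣ)

/-- Kill the middle factor. -/
def killQ (A : Type) [Group A] : (A × ℤˣ) × ℤˣ →* (A × ℤˣ) × ℤˣ :=
  ((MonoidHom.inl A ℤˣ).prodMap (MonoidHom.id ℤˣ)).comp
    ((MonoidHom.fst A ℤˣ).prodMap (MonoidHom.id ℤˣ))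

/-- The factor of `{1, -1} * {1, -1}` to which the factor with index `k` is mapped. -/
noncomputable def fac (x k : K) : ℤˣ →* Monoid.Coprod ℤˣ ℤˣ := by
  classical exact if k = x then Monoid.Coprod.inl else Monoid.Coprod.inr

theorem fac_self (x : K) : fac x x = Monoid.Coprod.inl := by
  simp [fac]

theorem fac_ne (x k : K) (h : k ≠ x) : fac x k = Monoid.Coprod.inr := by
  simp [fac, h]

theorem chiH_fac (x k : K) (u : ℤˣ) : chiH (fac x k u) = u := by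
  by_cases h : k = x
  · subst h
    rw [fac_self]
    simp [chiH]
  · rw [fac_ne x k h]
    simp [chiH]

/-- The homomorphism to the detecting group. -/
noncomputable def Phi (x : K) : (F K × ℤˣ) × ℤˣ →* Monoid.Coprod ℤˣ ℤˣ × ℤˣ :=
  ((liftF (fac x)).comp ((MonoidHom.fst (F K) ℤˣ).comp (MonoidHom.fst (F K × ℤˣ) ℤˣ))).prod
    (((MonoidHom.snd (F K) ℤˣ).comp (MonoidHom.fst (F K × ℤˣ) ℤˣ)) *
      (MonoidHom.snd (F K × ℤˣ) ℤˣ))

/-- The character of the detecting group. -/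
def psiH : Monoid.Coprod ℤˣ ℤˣ × ℤˣ →* ℤˣ := chiH.comp (MonoidHom.fst _ ℤˣ)

theorem psiH_Phi (x : K) : psiH.comp (Phi x) = psiF K := by
  have h : chiH.comp (liftF (fac x)) = chiF K := by
    apply F_ext
    intro k
    refine MonoidHom.ext fun u => ?_
    simp only [MonoidHom.comp_apply, liftF_lt, chiH_fac, chiF_lt]
  refine MonoidHom.ext fun y => ?_
  exact DFunLike.congr_fun h y.1.1

theorem psiH_fac (x k : K) (v : ℤˣ →* ℤˣ) : psiH.comp ((fac x k).prod v) = MonoidHom.id ℤˣ :=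
  MonoidHom.ext fun _ => chiH_fac x k _

theorem Phi_zz (x k : K) : (Phi x).comp (zz k) = (fac x k).prod 1 := by
  refine MonoidHom.ext fun u => ?_
  change (liftF (fac x) (lt k u), u * u) = (fac x k u, 1)
  rw [liftF_lt, Int.units_mul_self]

theorem Phi_P (x k : K) : (Phi x).comp ((killP (F K × ℤˣ)).comp (zz k)) =
    (fac x k).prod (MonoidHom.id ℤˣ) := by
  refine MonoidHom.ext fun u => ?_
  change (liftF (fac x) (lt k u), u * 1) = (fac x k u, u)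
  rw [liftF_lt, mul_one]

theorem Phi_Q (x k : K) : (Phi x).comp ((killQ (F K)).comp (zz k)) =
    (fac x k).prod (MonoidHom.id ℤˣ) := by
  refine MonoidHom.ext fun u => ?_
  change (liftF (fac x) (lt k u), 1 * u) = (fac x k u, u)
  rw [liftF_lt, one_mul]

theorem Phi_QP (x k : K) :
    (Phi x).comp ((killQ (F K)).comp ((killP (F K × ℤˣ)).comp (zz k))) = (fac x k).prod 1 := by
  refine MonoidHom.ext fun u => ?_
  change (liftF (fac x) (lt k u), (1 * 1 : ℤˣ)) = (fac x k u, 1)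
  rw [liftF_lt, one_mul]

theorem psiF_P : (psiF K).comp (killP (F K × ℤˣ)) = psiF K := rfl

theorem psiF_Q : (psiF K).comp (killQ (F K)) = psiF K := rfl

variable (Ω : PinTheory)

theorem detect₂ (Z : Ω.obj (psiF K)) (b : Ω.obj (psiU K))
    (h : Ω.map ((bE K).prodMap (MonoidHom.id ℤˣ)) (psiE_bE K) b =
      Ω.map ((gF K).prodMap (MonoidHom.id ℤˣ)) (psiE_gF K) Z) :
    Ω.map (killQ (F K)) psiF_Q Z = Z := by
  have hi : Function.Injective ((aU K).prodMap (MonoidHom.id ℤˣ)) := by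
    rintro ⟨a, u⟩ ⟨b, v⟩ h
    have h1 : aU K a = aU K b := congrArg Prod.fst h
    have h2 : u = v := congrArg Prod.snd h
    rw [aU_injective K h1, h2]
  exact red Ω (pushout_prod (pushout_E K) ℤˣ) hi ((MonoidHom.fst (F K) ℤˣ).prodMap
    (MonoidHom.id ℤˣ)) (MonoidHom.ext fun _ => rfl) (psiE_bE K) (psiE_gF K)
    (χC := (chiF K).comp (MonoidHom.fst (F K) ℤˣ))
    (MonoidHom.ext fun x => chiU_aU K x.1) rfl b Z h psiF_Q

theorem detect₁ {G : Type} [Group G] {fB : U K × U K →* G} {gE : E K × ℤˣ →* G}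
    (hp : Pushout (iE K) (MonoidHom.inl (E K) ℤˣ) fB gE) (χ : G →* ℤˣ)
    (hB : χ.comp fB = (chiU K).comp (MonoidHom.fst (U K) (U K))) (hE : χ.comp gE = psiE K)
    (Z : Ω.obj (psiF K)) (b₁ : Ω.obj ((chiU K).comp (MonoidHom.fst (U K) (U K))))
    (b : Ω.obj (psiU K))
    (h : Ω.map fB hB b₁ + Ω.map gE hE (Ω.map ((bE K).prodMap (MonoidHom.id ℤˣ)) (psiE_bE K) b) +
      Ω.map gE hE (Ω.map ((gF K).prodMap (MonoidHom.id ℤˣ)) (psiE_gF K) Z) = 0) :
    Ω.map (killQ (F K)) psiF_Q (Z - Ω.map (killP (F K × ℤˣ)) psiF_P Z) =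
      Z - Ω.map (killP (F K × ℤˣ)) psiF_P Z := by
  have hPE : (psiE K).comp (killP (E K)) = psiE K := rfl
  have hPU : (psiU K).comp (killP (U K)) = psiU K := rfl
  set Y := Ω.map ((bE K).prodMap (MonoidHom.id ℤˣ)) (psiE_bE K) b +
    Ω.map ((gF K).prodMap (MonoidHom.id ℤˣ)) (psiE_gF K) Z with hY
  have h1 : Ω.map fB hB (-b₁) = Ω.map gE hE Y := by
    rw [hY, map_add, map_neg]
    rw [add_assoc] at h
    exact neg_eq_of_add_eq_zero_right h
  have hE' : (psiE K).comp (MonoidHom.inl (E K) ℤˣ) = (chiU K).comp (rE K) := rfl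
  have h2 : Ω.map (killP (E K)) hPE Y = Y :=
    red Ω hp (iE_injective K) (MonoidHom.fst (E K) ℤˣ) (MonoidHom.ext fun _ => rfl) hB hE
      (χC := (chiU K).comp (rE K)) rfl hE' (-b₁) Y h1 hPE
  have h3 : Ω.map ((bE K).prodMap (MonoidHom.id ℤˣ)) (psiE_bE K)
      (Ω.map (killP (U K)) hPU b - b) =
      Ω.map ((gF K).prodMap (MonoidHom.id ℤˣ)) (psiE_gF K)
        (Z - Ω.map (killP (F K × ℤˣ)) psiF_P Z) := by
    have e1 := map_square Ω (killP (U K)) ((bE K).prodMap (MonoidHom.id ℤˣ))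
      ((bE K).prodMap (MonoidHom.id ℤˣ)) (killP (E K)) hPU (psiE_bE K) (psiE_bE K) hPE
      (MonoidHom.ext fun _ => rfl) b
    have e2 := map_square Ω (killP (F K × ℤˣ)) ((gF K).prodMap (MonoidHom.id ℤˣ))
      ((gF K).prodMap (MonoidHom.id ℤˣ)) (killP (E K)) psiF_P (psiE_gF K) (psiE_gF K) hPE
      (MonoidHom.ext fun _ => rfl) Z
    rw [map_sub, map_sub, e1, e2]
    rw [hY, map_add] at h2
    rw [sub_eq_sub_iff_add_eq_add, h2, add_comm]
  exact detect₂ Ω _ _ h3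

theorem detect {G : Type} [Group G] {fB : U K × U K →* G} {gE : E K × ℤˣ →* G}
    (hp : Pushout (iE K) (MonoidHom.inl (E K) ℤˣ) fB gE) (χ : G →* ℤˣ)
    (hB : χ.comp fB = (chiU K).comp (MonoidHom.fst (U K) (U K))) (hE : χ.comp gE = psiE K)
    (hT : ∀ k, χ.comp (TT gE k) = MonoidHom.id ℤˣ) (N : K →₀ ℤ)
    (b₁ : Ω.obj ((chiU K).comp (MonoidHom.fst (U K) (U K)))) (b : Ω.obj (psiU K))
    (h : Ω.map fB hB b₁ + Ω.map gE hE (Ω.map ((bE K).prodMap (MonoidHom.id ℤˣ)) (psiE_bE K) b) +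
      N.sum (fun k n => n • Ω.cls (TT gE k) (hT k)) = 0) (x : K) : (4 : ℤ) ∣ N x := by
  classical
  have hsum : Ω.map gE hE (Ω.map ((gF K).prodMap (MonoidHom.id ℤˣ)) (psiE_gF K)
      (N.sum fun k n => n • Ω.cls (zz k) (psiF_zz k))) =
      N.sum (fun k n => n • Ω.cls (TT gE k) (hT k)) := by
    rw [map_finsuppSum, map_finsuppSum]
    refine Finsupp.sum_congr fun k _ => ?_
    rw [map_zsmul, map_zsmul]
    congr 1
    have h1 : (psiE K).comp (((gF K).prodMap (MonoidHom.id ℤˣ)).comp (zz k)) =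
        MonoidHom.id ℤˣ := by
      rw [← MonoidHom.comp_assoc, psiE_gF, psiF_zz]
    rw [map_cls Ω _ _ _ _ h1, map_cls Ω _ _ _ _ (hT k)]
    rfl
  rw [← hsum] at h
  have h1 := detect₁ Ω hp χ hB hE _ b₁ b h
  set Z := N.sum fun k n => n • Ω.cls (zz k) (psiF_zz k) with hZ
  have h2 : Ω.map (Phi x) (psiH_Phi x) (Z - Ω.map (killP (F K × ℤˣ)) psiF_P Z -
      (Ω.map (killQ (F K)) psiF_Q Z -
        Ω.map (killQ (F K)) psiF_Q (Ω.map (killP (F K × ℤˣ)) psiF_P Z))) = 0 := by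
    rw [← map_sub (Ω.map (killQ (F K)) psiF_Q), h1, sub_self, map_zero]
  have h3 : ∀ W : Ω.obj (psiF K), Ω.map (Phi x) (psiH_Phi x)
      (W - Ω.map (killP (F K × ℤˣ)) psiF_P W - (Ω.map (killQ (F K)) psiF_Q W -
        Ω.map (killQ (F K)) psiF_Q (Ω.map (killP (F K × ℤˣ)) psiF_P W))) =
      (Ω.map (Phi x) (psiH_Phi x) - (Ω.map (Phi x) (psiH_Phi x)).comp
        (Ω.map (killP (F K × ℤˣ)) psiF_P) - ((Ω.map (Phi x) (psiH_Phi x)).comp
        (Ω.map (killQ (F K)) psiF_Q) - (Ω.map (Phi x) (psiH_Phi x)).comp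
        ((Ω.map (killQ (F K)) psiF_Q).comp (Ω.map (killP (F K × ℤˣ)) psiF_P)))) W := by
    intro W
    simp only [map_sub, AddMonoidHom.sub_apply, AddMonoidHom.comp_apply]
  rw [h3, hZ, map_finsuppSum] at h2
  have h4 : ∀ k (n : ℤ), (Ω.map (Phi x) (psiH_Phi x) - (Ω.map (Phi x) (psiH_Phi x)).comp
        (Ω.map (killP (F K × ℤˣ)) psiF_P) - ((Ω.map (Phi x) (psiH_Phi x)).comp
        (Ω.map (killQ (F K)) psiF_Q) - (Ω.map (Phi x) (psiH_Phi x)).comp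
        ((Ω.map (killQ (F K)) psiF_Q).comp (Ω.map (killP (F K × ℤˣ)) psiF_P))))
        (n • Ω.cls (zz k) (psiF_zz k)) =
      n • ((2 : ℤ) • dif Ω (fac x k) (psiH_fac x k 1) (psiH_fac x k (MonoidHom.id ℤˣ))) := by
    intro k n
    rw [map_zsmul]
    congr 1
    have hP : (psiF K).comp ((killP (F K × ℤˣ)).comp (zz k)) = MonoidHom.id ℤˣ := by
      rw [← MonoidHom.comp_assoc, psiF_P, psiF_zz]
    have hQ : (psiF K).comp ((killQ (F K)).comp (zz k)) = MonoidHom.id ℤˣ := by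
      rw [← MonoidHom.comp_assoc, psiF_Q, psiF_zz]
    have hQP : (psiF K).comp ((killQ (F K)).comp ((killP (F K × ℤˣ)).comp (zz k))) =
        MonoidHom.id ℤˣ := by
      rw [← MonoidHom.comp_assoc, psiF_Q, hP]
    have e1 : Ω.map (killP (F K × ℤˣ)) psiF_P (Ω.cls (zz k) (psiF_zz k)) = Ω.cls _ hP :=
      map_cls' Ω _ _ _ _ _ _ rfl
    have e2 : Ω.map (killQ (F K)) psiF_Q (Ω.cls (zz k) (psiF_zz k)) = Ω.cls _ hQ :=
      map_cls' Ω _ _ _ _ _ _ rfl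
    have e3 : Ω.map (killQ (F K)) psiF_Q (Ω.cls _ hP) = Ω.cls _ hQP :=
      map_cls' Ω _ _ _ _ _ _ rfl
    have f1 : Ω.map (Phi x) (psiH_Phi x) (Ω.cls (zz k) (psiF_zz k)) =
      Ω.cls _ (psiH_fac x k 1) := map_cls' Ω _ _ _ _ _ _ (Phi_zz x k)
    have f2 : Ω.map (Phi x) (psiH_Phi x) (Ω.cls _ hP) =
      Ω.cls _ (psiH_fac x k (MonoidHom.id ℤˣ)) := map_cls' Ω _ _ _ _ _ _ (Phi_P x k)
    have f3 : Ω.map (Phi x) (psiH_Phi x) (Ω.cls _ hQ) =
      Ω.cls _ (psiH_fac x k (MonoidHom.id ℤˣ)) := map_cls' Ω _ _ _ _ _ _ (Phi_Q x k)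
    have f4 : Ω.map (Phi x) (psiH_Phi x) (Ω.cls _ hQP) =
      Ω.cls _ (psiH_fac x k 1) := map_cls' Ω _ _ _ _ _ _ (Phi_QP x k)
    simp only [AddMonoidHom.sub_apply, AddMonoidHom.comp_apply]
    rw [e1, e2, e3, f1, f2, f3, f4, dif, two_smul]
    abel
  have h5 : N.sum (fun k n => n • ((2 : ℤ) • dif Ω (fac x k) (psiH_fac x k 1)
      (psiH_fac x k (MonoidHom.id ℤˣ)))) = 0 := by
    rw [← h2]
    exact Finsupp.sum_congr fun k _ => (h4 k _).symm
  have hl1 : (chiH.comp (MonoidHom.fst _ ℤˣ)).comp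
      ((Monoid.Coprod.inl : ℤˣ →* Monoid.Coprod ℤˣ ℤˣ).prod 1) = MonoidHom.id ℤˣ := by
    have := psiH_fac x x 1
    rwa [fac_self] at this
  have hl2 : (chiH.comp (MonoidHom.fst _ ℤˣ)).comp
      ((Monoid.Coprod.inl : ℤˣ →* Monoid.Coprod ℤˣ ℤˣ).prod (MonoidHom.id ℤˣ)) =
      MonoidHom.id ℤˣ := by
    have := psiH_fac x x (MonoidHom.id ℤˣ)
    rwa [fac_self] at this
  have hr1 : (chiH.comp (MonoidHom.fst _ ℤˣ)).comp
      ((Monoid.Coprod.inr : ℤˣ →* Monoid.Coprod ℤˣ ℤˣ).prod 1) = MonoidHom.id ℤˣ :=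
    MonoidHom.ext fun _ => by simp [chiH]
  have hr2 : (chiH.comp (MonoidHom.fst _ ℤˣ)).comp
      ((Monoid.Coprod.inr : ℤˣ →* Monoid.Coprod ℤˣ ℤˣ).prod (MonoidHom.id ℤˣ)) =
      MonoidHom.id ℤˣ := MonoidHom.ext fun _ => by simp [chiH]
  have g1 : ∀ (v : ℤˣ →* Monoid.Coprod ℤˣ ℤˣ) (e : fac x x = v) (q1 q2),
      dif Ω (fac x x) (psiH_fac x x 1) (psiH_fac x x (MonoidHom.id ℤˣ)) = dif Ω v q1 q2 := by
    rintro v rfl q1 q2
    rfl
  have g2 : ∀ (k : K) (v : ℤˣ →* Monoid.Coprod ℤˣ ℤˣ) (e : fac x k = v) (q1 q2),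
      dif Ω (fac x k) (psiH_fac x k 1) (psiH_fac x k (MonoidHom.id ℤˣ)) = dif Ω v q1 q2 := by
    rintro k v rfl q1 q2
    rfl
  apply four_dvd Ω (N x) ((N.erase x).sum fun _ n => n) hl1 hl2 hr1 hr2
  refine Eq.trans ?_ h5
  conv_rhs => rw [← Finsupp.single_add_erase x N]
  rw [Finsupp.sum_add_index' (by intro k; simp) (by intro k m n; rw [add_smul]),
    Finsupp.sum_single_index (by simp)]
  congr 1
  · rw [g1 _ (fac_self x) hl1 hl2]
    rfl
  · rw [Finsupp.sum, Finsupp.sum, Finset.sum_smul]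
    refine Finset.sum_congr rfl fun k hk => ?_
    have hkx : k ≠ x := by
      intro h
      subst h
      simp at hk
    rw [g2 k _ (fac_ne x k hkx) hr1 hr2]
    rfl

end

end Pool.Agent.FG
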