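import Pool.Agent.FG.Equiv

/-!
# A finite presentation of the amalgamated product
-/

namespace Pool.Agent.FG

open Pool.Agent.D4

section lifts

variable {K : Type} [Group K] {H : Type} [Group H]

/-- The homomorphism from `F K` given by conjugates of `s`. -/
def liftF' (κ : K →* H) (s : ℤˣ →* H) : F K →* H :=
  liftF fun k => (MulAut.conj (κ k)).toMonoidHom.comp s

theorem liftF'_lt (κ : K →* H) (s : ℤˣ →* H) (k : K) (u : ℤˣ) :
    liftF' κ s (lt k u) = κ k * s u * (κ k)⁻¹ := liftF_lt _ _ _

/-- The homomorphism from `U K` given on `K` and on the factor with index `1`. -/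
def liftU (κ : K →* H) (s : ℤˣ →* H) : U K →* H :=
  SemidirectProduct.lift (liftF' κ s) κ fun g => by
    apply F_ext
    intro x
    refine MonoidHom.ext fun u => ?_
    change liftF' κ s (tr g (lt x u)) = κ g * liftF' κ s (lt x u) * (κ g)⁻¹
    rw [tr_lt, liftF'_lt, liftF'_lt, map_mul]
    group

theorem liftU_bU (κ : K →* H) (s : ℤˣ →* H) (k : K) : liftU κ s (bU K k) = κ k :=
  SemidirectProduct.lift_inr _ _ _ _

theorem liftU_aU (κ : K →* H) (s : ℤˣ →* H) (k : K) (u : ℤˣ) :
    liftU κ s (aU K (lt k u)) = κ k * s u * (κ k)⁻¹ := by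
  have h : liftU κ s (aU K (lt k u)) = liftF' κ s (lt k u) :=
    SemidirectProduct.lift_inl _ _ _ _
  rw [h, liftF'_lt]

theorem U_ext {f g : U K →* H} (h1 : ∀ k, f (bU K k) = g (bU K k))
    (h2 : ∀ u, f (aU K (lt 1 u)) = g (aU K (lt 1 u))) : f = g :=
  D_ext' (MonoidHom.id K) Function.surjective_id h1 h2

theorem piU_surjective : Function.Surjective (piU K) := fun k => ⟨bU K k, piU_bU K k⟩

theorem E_ext {f g : E K →* H} (h1 : ∀ k, f (bE K (bU K k)) = g (bE K (bU K k)))
    (h2 : ∀ u, f (bE K (aU K (lt 1 u))) = g (bE K (aU K (lt 1 u))))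
    (h3 : ∀ u, f (inF (piU K) (lt 1 u)) = g (inF (piU K) (lt 1 u))) : f = g := by
  apply D_ext' (piU K) piU_surjective _ h3
  have h4 : f.comp (bE K) = g.comp (bE K) := U_ext h1 h2
  exact fun b => DFunLike.congr_fun h4 b

theorem commute_of_comp {A : Type} [Group A] {f : A →* H} {h : H}
    (e : (MulAut.conj h).toMonoidHom.comp f = f) (x : A) : Commute h (f x) :=
  mul_inv_eq_iff_eq_mul.1 (DFunLike.congr_fun e x)

theorem conj_eq_of_commute {x h : H} (e : Commute h x) : h * x * h⁻¹ = x :=
  mul_inv_eq_iff_eq_mul.2 e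

theorem commute_U {f : U K →* H} {h : H} (h1 : ∀ k, Commute h (f (bU K k)))
    (h2 : ∀ u, Commute h (f (aU K (lt 1 u)))) (x : U K) : Commute h (f x) :=
  commute_of_comp (U_ext (fun k => conj_eq_of_commute (h1 k))
    fun u => conj_eq_of_commute (h2 u)) x

theorem commute_E {f : E K →* H} {h : H} (h1 : ∀ k, Commute h (f (bE K (bU K k))))
    (h2 : ∀ u, Commute h (f (bE K (aU K (lt 1 u)))))
    (h3 : ∀ u, Commute h (f (inF (piU K) (lt 1 u)))) (x : E K) : Commute h (f x) :=
  commute_of_comp (E_ext (fun k => conj_eq_of_commute (h1 k))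
    (fun u => conj_eq_of_commute (h2 u)) fun u => conj_eq_of_commute (h3 u)) x

theorem commute_P {S : Type} {R : Set (FreeGroup S)} {f : PresentedGroup R →* H} {h : H}
    (h1 : ∀ s, Commute h (f (PresentedGroup.of s))) (x : PresentedGroup R) : Commute h (f x) :=
  commute_of_comp (PresentedGroup.ext fun s => conj_eq_of_commute (h1 s)) x

theorem commute_sign {t h : H} (ht : t * t = 1) (e : Commute h t) (u : ℤˣ) :
    Commute h (D4.signHom t ht u) := by
  rcases Int.units_eq_one_or u with rfl | rfl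
  · rw [map_one]
    exact Commute.one_right h
  · have : D4.signHom t ht (-1) = t := by simp [D4.signHom]
    rw [this]
    exact e

theorem sign_neg_one {t : H} (ht : t * t = 1) : D4.signHom t ht (-1) = t := by
  simp [D4.signHom]

theorem U_prod_ext {f g : U K × U K →* H} (h1 : ∀ k, f (bU K k, 1) = g (bU K k, 1))
    (h2 : f (aU K (lt 1 (-1)), 1) = g (aU K (lt 1 (-1)), 1))
    (h3 : ∀ k, f (1, bU K k) = g (1, bU K k))
    (h4 : f (1, aU K (lt 1 (-1))) = g (1, aU K (lt 1 (-1)))) : f = g := by
  have e1 : f.comp (MonoidHom.inl (U K) (U K)) = g.comp (MonoidHom.inl (U K) (U K)) := by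
    apply U_ext h1
    intro u
    rcases Int.units_eq_one_or u with rfl | rfl
    · rw [map_one (lt 1), map_one (aU K), map_one, map_one]
    · exact h2
  have e2 : f.comp (MonoidHom.inr (U K) (U K)) = g.comp (MonoidHom.inr (U K) (U K)) := by
    apply U_ext h3
    intro u
    rcases Int.units_eq_one_or u with rfl | rfl
    · rw [map_one (lt 1), map_one (aU K), map_one, map_one]
    · exact h4
  refine MonoidHom.ext fun x => ?_
  obtain ⟨u, v⟩ := x
  have e3 : ((u, v) : U K × U K) = (u, 1) * (1, v) := by simp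
  rw [e3, map_mul, map_mul]
  have e4 : f (u, 1) = g (u, 1) := DFunLike.congr_fun e1 u
  have e5 : f (1, v) = g (1, v) := DFunLike.congr_fun e2 v
  rw [e4, e5]

theorem E_prod_ext {f g : E K × ℤˣ →* H} (h1 : ∀ x, f (x, 1) = g (x, 1))
    (h2 : f (1, -1) = g (1, -1)) : f = g := by
  refine MonoidHom.ext fun x => ?_
  obtain ⟨u, v⟩ := x
  have e3 : ((u, v) : E K × ℤˣ) = (u, 1) * (1, v) := by simp
  rw [e3, map_mul, map_mul, h1]
  rcases Int.units_eq_one_or v with rfl | rfl
  · have : ((1, 1) : E K × ℤˣ) = 1 := rfl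
    rw [this, map_one, map_one]
  · rw [h2]

end lifts

/-- The generators: two copies of those of `K`, and `a, c, d`. -/
abbrev Gn (S : Type) : Type := (S ⊕ S) ⊕ Fin 3

/-- The commutator. -/
def cm {H : Type} [Group H] (x y : H) : H := x * y * x⁻¹ * y⁻¹

theorem cm_eq_one {H : Type} [Group H] {x y : H} : cm x y = 1 ↔ Commute x y := by
  unfold cm
  rw [mul_inv_eq_one, mul_inv_eq_iff_eq_mul]
  rfl

theorem map_cm {H H' : Type} [Group H] [Group H'] (f : H →* H') (x y : H) :
    f (cm x y) = cm (f x) (f y) := by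
  simp [cm]

section pres

variable {S : Type}

/-- The first copy. -/
def g1 : FreeGroup S →* FreeGroup (Gn S) := FreeGroup.map fun s => Sum.inl (Sum.inl s)
/-- The second copy. -/
def g2 : FreeGroup S →* FreeGroup (Gn S) := FreeGroup.map fun s => Sum.inl (Sum.inr s)
/-- The letter `a`. -/
def ga : FreeGroup (Gn S) := FreeGroup.of (Sum.inr 0)
/-- The letter `c`. -/
def gc : FreeGroup (Gn S) := FreeGroup.of (Sum.inr 1)
/-- The letter `d`. -/
def gd : FreeGroup (Gn S) := FreeGroup.of (Sum.inr 2)

/-- The relators. -/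
def frels (R : Set (FreeGroup S)) : Set (FreeGroup (Gn S)) :=
  g1 '' R ∪ g2 '' R ∪ (Set.range fun st : S × S =>
    cm (g1 (FreeGroup.of st.1)) (g2 (FreeGroup.of st.2))) ∪
  {ga * ga, gc * gc, gd * gd, cm ga gd, cm gc ga, cm gc gd} ∪
  (Set.range fun s : S => cm ga (g2 (FreeGroup.of s))) ∪
  (Set.range fun s : S => cm gd (g1 (FreeGroup.of s))) ∪
  (Set.range fun s : S => cm gc (g1 (FreeGroup.of s) * g2 (FreeGroup.of s)))

theorem frels_finite [Finite S] {R : Set (FreeGroup S)} (h : R.Finite) : (frels R).Finite := by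
  unfold frels
  refine Set.Finite.union (Set.Finite.union (Set.Finite.union (Set.Finite.union (Set.Finite.union
    (Set.Finite.union ?_ ?_) ?_) ?_) ?_) ?_) ?_
  · exact h.image _
  · exact h.image _
  · exact Set.finite_range _
  · exact Set.toFinite _
  · exact Set.finite_range _
  · exact Set.finite_range _
  · exact Set.finite_range _

/-- The group. -/
abbrev GP (R : Set (FreeGroup S)) : Type := PresentedGroup (frels R)

/-- A homomorphism from the free group killing the relators. -/
theorem frels_one {H : Type} [Group H] (R : Set (FreeGroup S)) (f : FreeGroup (Gn S) →* H)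
    (h1 : ∀ r ∈ R, f (g1 r) = 1) (h2 : ∀ r ∈ R, f (g2 r) = 1)
    (h3 : ∀ s t, Commute (f (g1 (FreeGroup.of s))) (f (g2 (FreeGroup.of t))))
    (h4 : f ga * f ga = 1) (h5 : f gc * f gc = 1) (h6 : f gd * f gd = 1)
    (h7 : Commute (f ga) (f gd)) (h8 : Commute (f gc) (f ga)) (h9 : Commute (f gc) (f gd))
    (h10 : ∀ s, Commute (f ga) (f (g2 (FreeGroup.of s))))
    (h11 : ∀ s, Commute (f gd) (f (g1 (FreeGroup.of s))))
    (h12 : ∀ s, Commute (f gc) (f (g1 (FreeGroup.of s)) * f (g2 (FreeGroup.of s)))) :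
    ∀ r ∈ frels R, f r = 1 := by
  rintro r ((((((⟨r, hr, rfl⟩ | ⟨r, hr, rfl⟩) | ⟨st, rfl⟩) | hr) | ⟨s, rfl⟩) | ⟨s, rfl⟩) | ⟨s, rfl⟩)
  · exact h1 r hr
  · exact h2 r hr
  · simp only [map_cm]
    exact cm_eq_one.2 (h3 _ _)
  · simp only [Set.mem_insert_iff, Set.mem_singleton_iff] at hr
    rcases hr with rfl | rfl | rfl | rfl | rfl | rfl
    · rw [map_mul, h4]
    · rw [map_mul, h5]
    · rw [map_mul, h6]
    · rw [map_cm]
      exact cm_eq_one.2 h7
    · rw [map_cm]
      exact cm_eq_one.2 h8
    · rw [map_cm]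
      exact cm_eq_one.2 h9
  · simp only [map_cm]
    exact cm_eq_one.2 (h10 s)
  · simp only [map_cm]
    exact cm_eq_one.2 (h11 s)
  · simp only [map_cm, map_mul]
    exact cm_eq_one.2 (h12 s)

section homs

variable (R : Set (FreeGroup S))

theorem mk_eq_one {r : FreeGroup (Gn S)} (h : r ∈ frels R) : PresentedGroup.mk (frels R) r = 1 :=
  PresentedGroup.one_of_mem h

theorem lift_of_comp {H : Type} [Group H] (f : FreeGroup (Gn S) →* H) :
    FreeGroup.lift (fun s : S => f (FreeGroup.of (Sum.inl (Sum.inl s)))) = f.comp g1 := by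
  ext s
  simp [g1]

theorem lift_of_comp' {H : Type} [Group H] (f : FreeGroup (Gn S) →* H) :
    FreeGroup.lift (fun s : S => f (FreeGroup.of (Sum.inl (Sum.inr s)))) = f.comp g2 := by
  ext s
  simp [g2]

/-- The first copy of `K`. -/
def k1 : PresentedGroup R →* GP R :=
  PresentedGroup.toGroup
    (f := fun s => PresentedGroup.mk (frels R) (FreeGroup.of (Sum.inl (Sum.inl s)))) (by
      intro r hr
      rw [lift_of_comp]
      exact mk_eq_one R (Or.inl (Or.inl (Or.inl (Or.inl (Or.inl (Or.inl ⟨r, hr, rfl⟩)))))))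

/-- The second copy of `K`. -/
def k2 : PresentedGroup R →* GP R :=
  PresentedGroup.toGroup
    (f := fun s => PresentedGroup.mk (frels R) (FreeGroup.of (Sum.inl (Sum.inr s)))) (by
      intro r hr
      rw [lift_of_comp']
      exact mk_eq_one R (Or.inl (Or.inl (Or.inl (Or.inl (Or.inl (Or.inr ⟨r, hr, rfl⟩)))))))

theorem k1_mk (g : FreeGroup S) :
    k1 R (PresentedGroup.mk R g) = PresentedGroup.mk (frels R) (g1 g) := by
  have h : (k1 R).comp (PresentedGroup.mk R) = (PresentedGroup.mk (frels R)).comp g1 := by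
    ext s
    simp only [MonoidHom.comp_apply, g1, FreeGroup.map.of]
    exact PresentedGroup.toGroup.of _
  exact DFunLike.congr_fun h g

theorem k2_mk (g : FreeGroup S) :
    k2 R (PresentedGroup.mk R g) = PresentedGroup.mk (frels R) (g2 g) := by
  have h : (k2 R).comp (PresentedGroup.mk R) = (PresentedGroup.mk (frels R)).comp g2 := by
    ext s
    simp only [MonoidHom.comp_apply, g2, FreeGroup.map.of]
    exact PresentedGroup.toGroup.of _
  exact DFunLike.congr_fun h g

/-- The generator `a`. -/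
def ea : GP R := PresentedGroup.mk (frels R) ga
/-- The generator `c`. -/
def ec : GP R := PresentedGroup.mk (frels R) gc
/-- The generator `d`. -/
def ed : GP R := PresentedGroup.mk (frels R) gd

theorem mem_six {r : FreeGroup (Gn S)}
    (h : r ∈ ({ga * ga, gc * gc, gd * gd, cm ga gd, cm gc ga, cm gc gd} :
      Set (FreeGroup (Gn S)))) : PresentedGroup.mk (frels R) r = 1 :=
  mk_eq_one R (Or.inl (Or.inl (Or.inl (Or.inr h))))

theorem ea_sq : ea R * ea R = 1 := by
  have h := mem_six R (r := ga * ga) (by simp)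
  rwa [map_mul] at h

theorem ec_sq : ec R * ec R = 1 := by
  have h := mem_six R (r := gc * gc) (by simp)
  rwa [map_mul] at h

theorem ed_sq : ed R * ed R = 1 := by
  have h := mem_six R (r := gd * gd) (by simp)
  rwa [map_mul] at h

theorem comm_ad : Commute (ea R) (ed R) := by
  have h := mem_six R (r := cm ga gd) (by simp)
  rw [map_cm] at h
  exact cm_eq_one.1 h

theorem comm_ca : Commute (ec R) (ea R) := by
  have h := mem_six R (r := cm gc ga) (by simp)
  rw [map_cm] at h
  exact cm_eq_one.1 h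

theorem comm_cd : Commute (ec R) (ed R) := by
  have h := mem_six R (r := cm gc gd) (by simp)
  rw [map_cm] at h
  exact cm_eq_one.1 h

theorem comm_12 (x y : PresentedGroup R) : Commute (k1 R x) (k2 R y) := by
  apply commute_P
  intro t
  apply Commute.symm
  apply commute_P
  intro s
  apply Commute.symm
  have h := mk_eq_one R (r := cm (g1 (FreeGroup.of s)) (g2 (FreeGroup.of t)))
    (Or.inl (Or.inl (Or.inl (Or.inl (Or.inr ⟨(s, t), rfl⟩)))))
  rw [map_cm] at h
  have e1 := k1_mk R (FreeGroup.of s)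
  have e2 := k2_mk R (FreeGroup.of t)
  rw [← e1, ← e2] at h
  exact cm_eq_one.1 h

theorem comm_a2 (y : PresentedGroup R) : Commute (ea R) (k2 R y) := by
  apply commute_P
  intro s
  have h := mk_eq_one R (r := cm ga (g2 (FreeGroup.of s)))
    (Or.inl (Or.inl (Or.inr ⟨s, rfl⟩)))
  rw [map_cm, ← k2_mk] at h
  exact cm_eq_one.1 h

theorem comm_d1 (y : PresentedGroup R) : Commute (ed R) (k1 R y) := by
  apply commute_P
  intro s
  have h := mk_eq_one R (r := cm gd (g1 (FreeGroup.of s))) (Or.inl (Or.inr ⟨s, rfl⟩))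
  rw [map_cm, ← k1_mk] at h
  exact cm_eq_one.1 h

theorem comm_c12 (y : PresentedGroup R) : Commute (ec R) (k1 R y * k2 R y) := by
  have h : (MulAut.conj (ec R)).toMonoidHom.comp (MonoidHom.noncommCoprod (k1 R) (k2 R)
      (comm_12 R) |>.comp ((MonoidHom.id _).prod (MonoidHom.id _))) =
      (MonoidHom.noncommCoprod (k1 R) (k2 R) (comm_12 R)).comp
        ((MonoidHom.id _).prod (MonoidHom.id _)) := by
    apply PresentedGroup.ext
    intro s
    have h := mk_eq_one R (r := cm gc (g1 (FreeGroup.of s) * g2 (FreeGroup.of s)))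
      (Or.inr ⟨s, rfl⟩)
    rw [map_cm, map_mul, ← k1_mk, ← k2_mk] at h
    exact conj_eq_of_commute (cm_eq_one.1 h)
  exact commute_of_comp h y

/-- The homomorphism from `U K × U K`. -/
def fB : U (PresentedGroup R) × U (PresentedGroup R) →* GP R :=
  MonoidHom.noncommCoprod (liftU (k1 R) (D4.signHom (ea R) (ea_sq R)))
    (liftU (k2 R) (D4.signHom (ed R) (ed_sq R))) (by
      intro u v
      apply commute_U
      · intro k
        rw [liftU_bU]
        apply Commute.symm
        apply commute_U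
        · intro k'
          rw [liftU_bU]
          exact (comm_12 R k' k).symm
        · intro u
          rw [liftU_aU, map_one, one_mul, inv_one, mul_one]
          exact commute_sign _ (comm_a2 R k).symm u
      · intro w
        rw [liftU_aU, map_one, one_mul, inv_one, mul_one]
        apply commute_sign
        apply Commute.symm
        apply commute_U
        · intro k
          rw [liftU_bU]
          exact comm_d1 R k
        · intro u
          rw [liftU_aU, map_one, one_mul, inv_one, mul_one]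
          exact commute_sign _ (comm_ad R).symm u)

theorem fB_apply (u v : U (PresentedGroup R)) : fB R (u, v) =
    liftU (k1 R) (D4.signHom (ea R) (ea_sq R)) u * liftU (k2 R) (D4.signHom (ed R) (ed_sq R)) v :=
  rfl

theorem fB_iE_bU (k : PresentedGroup R) :
    fB R (iE _ (bE _ (bU _ k))) = k1 R k * k2 R k := by
  have h : iE _ (bE _ (bU _ k)) = (bU _ k, bU _ k) := by
    refine Prod.ext (rE_bE _ _) ?_
    change sE _ (bE _ (bU _ k)) = bU _ k
    rw [sE_bE, piU_bU]
  rw [h, fB_apply, liftU_bU, liftU_bU]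

theorem fB_iE_aU (k : PresentedGroup R) (u : ℤˣ) :
    fB R (iE _ (bE _ (aU _ (lt k u)))) =
      k1 R k * D4.signHom (ea R) (ea_sq R) u * (k1 R k)⁻¹ := by
  have h : iE _ (bE _ (aU _ (lt k u))) = (aU _ (lt k u), 1) := by
    refine Prod.ext (rE_bE _ _) ?_
    change sE _ (bE _ (aU _ (lt k u))) = 1
    rw [sE_bE, piU_aU, map_one]
  rw [h, fB_apply, liftU_aU, map_one, mul_one]

theorem fB_iE_inF (u : ℤˣ) : fB R (iE _ (inF (piU _) (lt 1 u))) =
      D4.signHom (ed R) (ed_sq R) u := by
  have h : iE (PresentedGroup R) (inF (piU _) (lt 1 u)) = (1, aU _ (lt 1 u)) :=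
    Prod.ext (rE_inF _ _) (sE_inF _ _)
  rw [h, fB_apply, liftU_aU, map_one, one_mul, map_one, one_mul, inv_one, mul_one]

/-- The homomorphism from `E K × {1, -1}`. -/
def gE : E (PresentedGroup R) × ℤˣ →* GP R :=
  MonoidHom.noncommCoprod ((fB R).comp (iE _)) (D4.signHom (ec R) (ec_sq R)) (by
    intro x u
    apply commute_sign
    apply Commute.symm
    apply commute_E
    · intro k
      rw [MonoidHom.comp_apply, fB_iE_bU]
      exact comm_c12 R k
    · intro u
      rw [MonoidHom.comp_apply, fB_iE_aU, map_one, one_mul, inv_one, mul_one]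
      exact commute_sign _ (comm_ca R) u
    · intro u
      rw [MonoidHom.comp_apply, fB_iE_inF]
      exact commute_sign _ (comm_cd R) u)

theorem gE_apply (x : E (PresentedGroup R)) (u : ℤˣ) :
    gE R (x, u) = fB R (iE _ x) * D4.signHom (ec R) (ec_sq R) u := rfl

end homs

end pres

end Pool.Agent.FG
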