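import Pool.Agent.FG.Pres

/-!
# The presented group is the amalgamated product
-/

namespace Pool.Agent.FG

open Pool.Agent.D4

variable {S : Type} (R : Set (FreeGroup S))

section desc

variable {H : Type} [Group H] (A : U (PresentedGroup R) × U (PresentedGroup R) →* H)
  (B : E (PresentedGroup R) × ℤˣ →* H)

/-- The values at the generators. -/
def gens : Gn S → H
  | Sum.inl (Sum.inl s) => A (bU _ (PresentedGroup.of s), 1)
  | Sum.inl (Sum.inr s) => A (1, bU _ (PresentedGroup.of s))
  | Sum.inr i => if i = 0 then A (aU _ (lt 1 (-1)), 1) else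
      if i = 1 then B (1, -1) else A (1, aU _ (lt 1 (-1)))

theorem lift_g1 (g : FreeGroup S) :
    FreeGroup.lift (gens R A B) (g1 g) = A (bU _ (PresentedGroup.mk R g), 1) := by
  have h : (FreeGroup.lift (gens R A B)).comp g1 =
      ((A.comp (MonoidHom.inl _ _)).comp (bU _)).comp (PresentedGroup.mk R) := by
    ext s
    simp only [MonoidHom.comp_apply, g1, FreeGroup.map.of, FreeGroup.lift_apply_of, gens]
    rfl
  exact DFunLike.congr_fun h g

theorem lift_g2 (g : FreeGroup S) :
    FreeGroup.lift (gens R A B) (g2 g) = A (1, bU _ (PresentedGroup.mk R g)) := by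
  have h : (FreeGroup.lift (gens R A B)).comp g2 =
      ((A.comp (MonoidHom.inr _ _)).comp (bU _)).comp (PresentedGroup.mk R) := by
    ext s
    simp only [MonoidHom.comp_apply, g2, FreeGroup.map.of, FreeGroup.lift_apply_of, gens]
    rfl
  exact DFunLike.congr_fun h g

theorem lift_ga : FreeGroup.lift (gens R A B) ga = A (aU _ (lt 1 (-1)), 1) := by
  simp [ga, gens]

theorem lift_gc : FreeGroup.lift (gens R A B) gc = B (1, -1) := by
  simp [gc, gens]

theorem lift_gd : FreeGroup.lift (gens R A B) gd = A (1, aU _ (lt 1 (-1))) := by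
  simp [gd, gens]

theorem aa_one (K : Type) [Group K] : aU K (lt 1 (-1)) * aU K (lt 1 (-1)) = 1 := by
  rw [← map_mul, ← map_mul]
  simp

theorem comm_pair {M N : Type} [Group M] [Group N] (x : M) (y : N) :
    Commute ((x, 1) : M × N) ((1, y) : M × N) := by
  change (x, 1) * (1, y) = (1, y) * (x, 1)
  simp

theorem comm_map {M N : Type} [Group M] [Group N] (f : M →* N) {x y : M} (h : Commute x y) :
    Commute (f x) (f y) := h.map f

theorem iE_bE_bU (K : Type) [Group K] (k : K) : iE K (bE K (bU K k)) = (bU K k, bU K k) := by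
  refine Prod.ext (rE_bE _ _) ?_
  change sE _ (bE _ (bU _ k)) = bU _ k
  rw [sE_bE, piU_bU]

theorem iE_bE_aU (K : Type) [Group K] (f : F K) : iE K (bE K (aU K f)) = (aU K f, 1) := by
  refine Prod.ext (rE_bE _ _) ?_
  change sE _ (bE _ (aU _ f)) = 1
  rw [sE_bE, piU_aU, map_one]

theorem iE_inF (K : Type) [Group K] (f : F K) : iE K (inF (piU K) f) = (1, aU K f) :=
  Prod.ext (rE_inF _ _) (sE_inF _ _)

variable (hAB : A.comp (iE (PresentedGroup R)) = B.comp (MonoidHom.inl _ ℤˣ))

include hAB

theorem hAB' (x : E (PresentedGroup R)) : A (iE _ x) = B (x, 1) := DFunLike.congr_fun hAB x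

theorem comm_B (x : E (PresentedGroup R)) : Commute (B (1, -1)) (A (iE _ x)) := by
  rw [hAB' R A B hAB]
  exact comm_map B (comm_pair x (-1 : ℤˣ)).symm

theorem gens_rel : ∀ r ∈ frels R, FreeGroup.lift (gens R A B) r = 1 := by
  have hone : ∀ x : U (PresentedGroup R) × U (PresentedGroup R), x = 1 → A x = 1 := by
    rintro x rfl
    exact map_one A
  apply frels_one
  · intro r hr
    rw [lift_g1, PresentedGroup.one_of_mem hr, map_one]
    exact hone _ rfl
  · intro r hr
    rw [lift_g2, PresentedGroup.one_of_mem hr, map_one]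
    exact hone _ rfl
  · intro s t
    rw [lift_g1, lift_g2]
    exact comm_map A (comm_pair _ _)
  · rw [lift_ga, ← map_mul]
    apply hone
    exact Prod.ext (aa_one _) (one_mul _)
  · rw [lift_gc, ← map_mul]
    have : ((1, -1) : E (PresentedGroup R) × ℤˣ) * (1, -1) = 1 := by simp
    rw [this, map_one]
  · rw [lift_gd, ← map_mul]
    apply hone
    exact Prod.ext (one_mul _) (aa_one _)
  · rw [lift_ga, lift_gd]
    exact comm_map A (comm_pair _ _)
  · rw [lift_gc, lift_ga, ← iE_bE_aU]
    exact comm_B R A B hAB _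
  · rw [lift_gc, lift_gd, ← iE_inF]
    exact comm_B R A B hAB _
  · intro s
    rw [lift_ga, lift_g2]
    exact comm_map A (comm_pair _ _)
  · intro s
    rw [lift_gd, lift_g1]
    exact (comm_map A (comm_pair _ _)).symm
  · intro s
    rw [lift_gc, lift_g1, lift_g2, ← map_mul]
    have h := comm_B R A B hAB (bE _ (bU _ (PresentedGroup.mk R (FreeGroup.of s))))
    rw [iE_bE_bU] at h
    simpa using h

/-- The homomorphism given by the pushout property. -/
def cc : GP R →* H := PresentedGroup.toGroup (gens_rel R A B hAB)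

theorem cc_mk (g : FreeGroup (Gn S)) :
    cc R A B hAB (PresentedGroup.mk (frels R) g) = FreeGroup.lift (gens R A B) g := by
  have h : (cc R A B hAB).comp (PresentedGroup.mk (frels R)) = FreeGroup.lift (gens R A B) := by
    ext s
    simp only [MonoidHom.comp_apply]
    rw [FreeGroup.lift_apply_of]
    exact PresentedGroup.toGroup.of _
  exact DFunLike.congr_fun h g

theorem cc_k1 (k : PresentedGroup R) : cc R A B hAB (k1 R k) = A (bU _ k, 1) := by
  have h : (cc R A B hAB).comp (k1 R) = (A.comp (MonoidHom.inl _ _)).comp (bU _) := by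
    apply PresentedGroup.ext
    intro s
    change cc R A B hAB (k1 R (PresentedGroup.mk R (FreeGroup.of s))) =
      A (bU _ (PresentedGroup.mk R (FreeGroup.of s)), 1)
    rw [k1_mk, cc_mk, lift_g1]
  exact DFunLike.congr_fun h k

theorem cc_k2 (k : PresentedGroup R) : cc R A B hAB (k2 R k) = A (1, bU _ k) := by
  have h : (cc R A B hAB).comp (k2 R) = (A.comp (MonoidHom.inr _ _)).comp (bU _) := by
    apply PresentedGroup.ext
    intro s
    change cc R A B hAB (k2 R (PresentedGroup.mk R (FreeGroup.of s))) =
      A (1, bU _ (PresentedGroup.mk R (FreeGroup.of s)))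
    rw [k2_mk, cc_mk, lift_g2]
  exact DFunLike.congr_fun h k

theorem cc_fB : (cc R A B hAB).comp (fB R) = A := by
  apply U_prod_ext
  · intro k
    rw [MonoidHom.comp_apply, fB_apply, liftU_bU, map_one, mul_one, cc_k1]
  · rw [MonoidHom.comp_apply, fB_apply, liftU_aU, sign_neg_one, map_one, one_mul, inv_one, mul_one,
      map_one, mul_one, ea, cc_mk, lift_ga]
  · intro k
    rw [MonoidHom.comp_apply, fB_apply, liftU_bU, map_one, one_mul, cc_k2]
  · rw [MonoidHom.comp_apply, fB_apply, liftU_aU, sign_neg_one, map_one, one_mul, map_one, one_mul,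
      inv_one, mul_one, ed, cc_mk, lift_gd]

end desc

theorem pushout_GP : Pushout (iE (PresentedGroup R)) (MonoidHom.inl (E (PresentedGroup R)) ℤˣ)
    (fB R) (gE R) where
  comm := by
    refine MonoidHom.ext fun x => ?_
    rw [MonoidHom.comp_apply, MonoidHom.comp_apply, MonoidHom.inl_apply, gE_apply, map_one,
      mul_one]
  desc H _ A B hAB := by
    refine ⟨cc R A B hAB, ⟨cc_fB R A B hAB, ?_⟩, ?_⟩
    · apply E_prod_ext
      · intro x
        rw [MonoidHom.comp_apply, gE_apply, map_one, mul_one, ← MonoidHom.comp_apply,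
          cc_fB R A B hAB, hAB' R A B hAB]
      · rw [MonoidHom.comp_apply, gE_apply, map_one, map_one, one_mul, sign_neg_one, ec, cc_mk,
          lift_gc]
    · rintro c ⟨h1, h2⟩
      apply PresentedGroup.ext
      intro s
      have h3 : ∀ x, c (fB R x) = A x := fun x => DFunLike.congr_fun h1 x
      have h4 : ∀ x, c (gE R x) = B x := fun x => DFunLike.congr_fun h2 x
      change c (PresentedGroup.mk (frels R) (FreeGroup.of s)) =
        cc R A B hAB (PresentedGroup.mk (frels R) (FreeGroup.of s))
      rw [cc_mk, FreeGroup.lift_apply_of]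
      rcases s with (s | s) | i
      · have h5 := h3 (bU _ (PresentedGroup.of s), 1)
        rw [fB_apply, liftU_bU, map_one, mul_one] at h5
        change _ = A (bU _ (PresentedGroup.of s), 1)
        rw [← h5]
        have h6 := k1_mk R (FreeGroup.of s)
        exact congrArg c h6.symm
      · have h5 := h3 (1, bU _ (PresentedGroup.of s))
        rw [fB_apply, liftU_bU, map_one, one_mul] at h5
        change _ = A (1, bU _ (PresentedGroup.of s))
        rw [← h5]
        have h6 := k2_mk R (FreeGroup.of s)
        exact congrArg c h6.symm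
      · fin_cases i
        · have h5 := h3 (aU _ (lt 1 (-1)), 1)
          rw [fB_apply, liftU_aU, sign_neg_one, map_one, one_mul, inv_one, mul_one,
            map_one, mul_one] at h5
          exact h5
        · have h5 := h4 (1, -1)
          rw [gE_apply, map_one, map_one, one_mul, sign_neg_one] at h5
          exact h5
        · have h5 := h3 (1, aU _ (lt 1 (-1)))
          rw [fB_apply, liftU_aU, sign_neg_one, map_one, one_mul, map_one, one_mul, inv_one,
            mul_one] at h5
          exact h5

/-- The character which is `-1` at `a` and `1` at the other generators. -/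
def chiGP : GP R →* ℤˣ :=
  cc R ((chiU (PresentedGroup R)).comp (MonoidHom.fst _ _)) (psiE (PresentedGroup R))
    (MonoidHom.ext fun _ => rfl)

theorem chiGP_fB : (chiGP R).comp (fB R) =
    (chiU (PresentedGroup R)).comp (MonoidHom.fst _ _) := cc_fB R _ _ _

theorem chiGP_gE : (chiGP R).comp (gE R) = psiE (PresentedGroup R) := by
  apply E_prod_ext
  · intro x
    rw [MonoidHom.comp_apply, gE_apply, map_one, mul_one, ← MonoidHom.comp_apply, chiGP_fB]
    rfl
  · rw [MonoidHom.comp_apply, gE_apply, map_one, map_one, one_mul, sign_neg_one, ec, chiGP, cc_mk,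
      lift_gc]

theorem chiGP_TT (k : PresentedGroup R) :
    (chiGP R).comp (TT (gE R) k) = MonoidHom.id ℤˣ := by
  have h1 : (psiE (PresentedGroup R)).comp (((gF _).prodMap (MonoidHom.id ℤˣ)).comp (zz k)) =
      MonoidHom.id ℤˣ := by rw [← MonoidHom.comp_assoc, psiE_gF, psiF_zz]
  rw [TT, ← MonoidHom.comp_assoc, chiGP_gE, h1]

theorem TT_neg_one (g : FreeGroup S) : TT (gE R) (PresentedGroup.mk R g) (-1) =
    PresentedGroup.mk (frels R) (g1 g * ga * (g1 g)⁻¹ * gd * gc) := by
  have h1 : TT (gE R) (PresentedGroup.mk R g) (-1) =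
      gE R (gF _ (lt (PresentedGroup.mk R g) (-1), -1), -1) := rfl
  have h2 : gF (PresentedGroup R) (lt (PresentedGroup.mk R g) (-1), -1) =
      bE _ (aU _ (lt (PresentedGroup.mk R g) (-1))) * inF (piU _) (lt 1 (-1)) := rfl
  rw [h1, gE_apply, h2, map_mul, map_mul, fB_iE_aU, fB_iE_inF, sign_neg_one, sign_neg_one,
    sign_neg_one, k1_mk, map_mul, map_mul, map_mul, map_mul, map_inv]
  rfl

end Pool.Agent.FG
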